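import Mathlib

set_option autoImplicit false

/-!
Caterpillars with three spine vertices and rainbow labelings (MP_b97a60_co).
-/

namespace Pool.Agent.H96.RC

/-- The vertices of the caterpillar `C(h1, h2, h3)`: the spine vertices `v1, v2, v3`, the `h1`
hairs `x i` at `v1`, the `h2` hairs `y i` at `v2` and the `h3` hairs `z i` at `v3`. -/
inductive Vtx (h1 h2 h3 : ℕ) : Type
  | v1 | v2 | v3
  | x (i : Fin h1)
  | y (i : Fin h2)
  | z (i : Fin h3)

/-- The oriented list of the edges of `C(h1, h2, h3)`: `v1 v2`, `v2 v3`, `v1 (x i)`, `v2 (y i)`,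
`v3 (z i)`. -/
inductive Edg (h1 h2 h3 : ℕ) : Vtx h1 h2 h3 → Vtx h1 h2 h3 → Prop
  | s12 : Edg h1 h2 h3 .v1 .v2
  | s23 : Edg h1 h2 h3 .v2 .v3
  | ex (i : Fin h1) : Edg h1 h2 h3 .v1 (.x i)
  | ey (i : Fin h2) : Edg h1 h2 h3 .v2 (.y i)
  | ez (i : Fin h3) : Edg h1 h2 h3 .v3 (.z i)

/-- The caterpillar `C(h1, h2, h3)` as a simple graph. -/
def Cat (h1 h2 h3 : ℕ) : SimpleGraph (Vtx h1 h2 h3) where
  Adj u w := Edg h1 h2 h3 u w ∨ Edg h1 h2 h3 w u
  symm := ⟨fun _ _ h => h.symm⟩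
  loopless := ⟨fun u h => by rcases h with h | h <;> cases h⟩

/-- `f` is an `A`-rainbow labeling of `T`: it is a bijection from the vertices to `A` and the
edge labels `f u + f w` of different edges are different. -/
def Rainbow {V A : Type} [AddCommGroup A] (T : SimpleGraph V) (f : V → A) : Prop :=
  Function.Bijective f ∧ ∀ u w u' w' : V, T.Adj u w → T.Adj u' w' →
    f u + f w = f u' + f w' → s(u, w) = s(u', w')

/-- The three exceptional cases 1, 2, 3 of the problem, for the modulus `m`; the residues of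
`h1, h2, h3` are `h1 % m`, `h2 % m`, `h3 % m`. -/
def Exceptional (m h1 h2 h3 : ℕ) : Prop :=
  (h2 % m = m - 2 ∧ ((h1 % m = 0 ∧ h3 % m = m - 1) ∨ (h1 % m = m - 1 ∧ h3 % m = 0))) ∨
  (h2 = 0 ∧ ((h1 % m = m - 1 ∧ h3 % m = m - 2) ∨ (h1 % m = m - 2 ∧ h3 % m = m - 1))) ∨
  (h2 = 1 ∧ ((h1 % m = m - 1 ∧ h3 % m = m - 3) ∨ (h1 % m = m - 3 ∧ h3 % m = m - 1)))

end Pool.Agent.H96.RC
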