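import Pool.Agent.H96.RC.Defs
import Pool.Agent.H96.RC.Graph

set_option autoImplicit false

/-!
Statements of the pieces (as propositions). Complete paper proofs in the docstrings.
-/

namespace Pool.Agent.H96.RC

open Finset

/-- LAB. A normalised labelling gives a rainbow labelling of the caterpillar.
PROOF: let `a, c, X, Z` be given by `Lab`, put `Y = (univ \ {0,a,c}) \ (X ∪ Z)`, which has
`card A - 3 - h1 - h3 = h2` elements. Choose equivalences `Fin h1 ≃ X`, `Fin h2 ≃ Y`,
`Fin h3 ≃ Z` and put `f v1 = a, f v2 = 0, f v3 = c`, `f (x i)`, `f (y i)`, `f (z i)` the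
corresponding elements. `f` is injective and surjective. Edge labels: `v1 v2 : a`, `v2 v3 : c`,
`v1 x : x + a`, `v2 y : y`, `v3 z : z + c`. The last three are the values `sh a c X Z` of the
elements of `univ \ {0,a,c}`, they are pairwise distinct and different from `a, c`. -/
def S_lab : Prop :=
  ∀ (A : Type) [AddCommGroup A] [Fintype A] [DecidableEq A] (h1 h2 h3 : ℕ),
    Fintype.card A = h1 + h2 + h3 + 3 → Lab A h1 h3 →
    ∃ f : Vtx h1 h2 h3 → A, Rainbow (Cat h1 h2 h3) f

/-- ASM. Assembly over the cosets.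
PROOF: let `g : A` have additive order `m` (`AddMonoid.exists_addOrderOf_eq_exponent`).
(1) FULL COSETS: for every list `l` with `∀ p ∈ l, Fz m a c p.1 p.2` and every Finset `U` of `A`
with `x ∈ U → x + g ∈ U` (hence `x + n • g ∈ U` for all integers `n`, since `g` has finite order)
and `U.card = l.length * m` one has
`Mv (a • g) (c • g) U U (l.map Prod.fst).sum (l.map Prod.snd).sum`. Induction on `l`: for
`l = p :: l'` pick `r ∈ U`; `C = (Ico s (s+m)).image (fun n : ℤ => r + n • g)` is the coset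
`r + zmultiples g`, it does not depend on the window `s`, has `m` elements and is contained in `U`;
`Mv.map` for `φ n = r + n • g` and `Mv.mono` give `Mv (a•g) (c•g) C C p.1 p.2`; the set `U \ C`
is closed under adding `g` and has `l'.length * m` elements; finish with `Mv.union`.
(2) SPECIAL COSET: `Sz m a c i0 j0` and `φ n = n • g` give, with
`H = (Ico 0 m).image φ`, `Mv (a•g) (c•g) (H \ {0, a•g, c•g}) (H \ {a•g, c•g}) i0 j0`
(`φ` is injective on every window of length `m`, `φ (n + m) = φ n`).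
(3) Apply (1) to `U = univ \ H` and unite. `a•g ≠ 0`, `c•g ≠ 0`, `a•g ≠ c•g` because
`0, za, zc` are different elements of one window. -/
def S_asm : Prop :=
  ∀ (A : Type) [AddCommGroup A] [Fintype A] [DecidableEq A] (m k i j : ℕ), 0 < m →
    AddMonoid.exponent A = m → Fintype.card A = k * m → Gd m k i j → Lab A i j

/-- STAR. The case without hairs at `v1` (then `v1` is a leaf at `v2`), `h3 = m - 2 + m z`.
PROOF: `g` of additive order `m`, `H = zmultiples g`, `c = g`. Let `W` be a union of `z` cosets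
of `H` different from `H` (there are `k - 1 ≥ z` of them), `Z = (H \ {0, g}) ∪ W`,
which has `m - 2 + m z` elements. `x ↦ x + g` maps `H \ {0,g}` into `H \ {g, 2g}` and `W` onto `W`;
all other elements stay. As `card A = k * m ≥ (z+1) * m + 1` there is an element
`a` outside `H ∪ W`; take `X = ∅` and this `a`, `c = g`. -/
def S_star : Prop :=
  ∀ (A : Type) [AddCommGroup A] [Fintype A] [DecidableEq A] (m k z : ℕ), 2 ≤ m →
    AddMonoid.exponent A = m → Fintype.card A = k * m → z + 2 ≤ k → Lab A 0 (m - 2 + m * z)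

/-- L-S1 (labelling of Rosa type, one coset). Put `a = γ + 1`,
`c = -(α + 1)`, `s = s' = -α`, `za = wa = a`, `zc = wc = c + m = γ + β + 2`. The domain
is `[-α, -1] ∪ [1, γ] ∪ [γ + 2, γ + β + 1]`, `X = Ico (-α) 0`, `Z = Ico 1 (γ+1)`;
`X + a = [γ + 1 - α, γ]`, `Z + c = [-α, γ - α - 1]`, the rest stays. All by omega. -/
def S_one : Prop :=
  ∀ (m α β γ : ℕ), α + β + γ + 3 = m → Sz m ((γ : ℤ) + 1) (-((α : ℤ) + 1)) α γ

/-- PATH0 (displacements `+1` and `-2`). Here `a = 1`, `c = -2`. Take `s = 0`, `za = 1`,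
`zc = m - 2`; range window `s' = 0`, `wa = 1`, `wc = m - 2`. Put `e = u + 2 d`.
Domain `[2, m-3] ∪ {m-1}`. `2 ↦ 0` (displacement `-2`). The interval `[3, e]` (length `e - 2`)
is mapped onto `[2, e-1]` by `Tl 1 (-2) (-1)`: it is tiled by `u` blocks of length 3
(`x+2 ↦ x`, `x+1 ↦ x-1`, `x ↦ x+1`: one `+1`, two `-2`) and `d - 1 - u` blocks of
length 2 (`x+1 ↦ x-1`, `x ↦ x`: the lower element `x` stays, one `-2`). Then `[e+1, e+3t]`
is tiled by `t` blocks `x ↦ x+1 ↦ x+2 ↦ x` (two `+1`, one `-2`), the rest stays.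
Total: `u + 2 t` displacements `+1` and `1 + 2u + (d-1-u) + t = u + d + t` displacements `-2`. -/
def S_path0 : Prop :=
  ∀ (m u d t : ℕ), u + 1 ≤ d → u + 2 * d + 3 * t + 3 ≤ m →
    Sz m 1 (-2) (u + 2 * t) (u + d + t)

/-- PATH1. As PATH0, but the top of the path is a block `e ↦ e+1`, `e+1 ↦ e-1`:
`2 ↦ 0`, the interval `[3, e-1]` is mapped onto `[2, e-2]` by `u - 1` blocks of length 3 and
`d - u` blocks of length 2, then `e ↦ e + 1`, `e + 1 ↦ e - 1` where `e = u + 2 d`, then the
`t` triple blocks on `[e+2, e+1+3t]`, the rest stays (hole `e`). -/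
def S_path1 : Prop :=
  ∀ (m u d t : ℕ), 1 ≤ u → u ≤ d → u + 2 * d + 3 * t + 4 ≤ m →
    Sz m 1 (-2) (u + 2 * t) (u + d + t)

end Pool.Agent.H96.RC
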