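import Pool.Agent.H96.RC.Tiles
import Pool.Agent.H96.RC.Stm

set_option autoImplicit false

namespace Pool.Agent.H96.RC

open Finset

theorem Gd.symm {m k i j : ℕ} (h : Gd m k i j) : Gd m k j i := by
  obtain ⟨a, c, i0, j0, l, h1, h2, h3, h4, h5⟩ := h
  refine ⟨c, a, j0, i0, l.map Prod.swap, h1.symm, by simpa using h2, ?_, ?_, ?_⟩
  · intro p hp
    rw [List.mem_map] at hp
    obtain ⟨q, hq, rfl⟩ := hp
    exact (h3 q hq).symm
  · rw [h5, List.map_map]; rfl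
  · rw [h4, List.map_map]; rfl

theorem Gd.full {m k i j : ℕ} (h : Gd m k i j) (x z w : ℕ) :
    Gd m (k + x + z + w) (i + m * x) (j + m * z) := by
  obtain ⟨a, c, i0, j0, l, h1, h2, h3, h4, h5⟩ := h
  refine ⟨a, c, i0, j0, l ++ (List.replicate x (m, 0) ++ (List.replicate z (0, m) ++
    List.replicate w (0, 0))), h1, ?_, ?_, ?_, ?_⟩
  · simp only [List.length_append, List.length_replicate]; omega
  · intro p hp
    simp only [List.mem_append, List.mem_replicate] at hp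
    rcases hp with hp | ⟨_, rfl⟩ | ⟨_, rfl⟩ | ⟨_, rfl⟩
    · exact h3 p hp
    · exact Fz.fulla m a c
    · exact Fz.fullc m a c
    · exact Fz.zero m a c
  · simp only [List.map_append, List.map_replicate, List.sum_append, List.sum_replicate,
      smul_eq_mul]
    rw [h4]; ring
  · simp only [List.map_append, List.map_replicate, List.sum_append, List.sum_replicate,
      smul_eq_mul]
    rw [h5]; ring

theorem Gd.mk1 {m : ℕ} {a c : ℤ} {i0 j0 : ℕ} (h : Sz m a c i0 j0) : Gd m 1 i0 j0 :=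
  ⟨a, c, i0, j0, [], h, rfl, by simp, by simp, by simp⟩

theorem Gd.mk2 {m : ℕ} {a c : ℤ} {i0 j0 i1 j1 : ℕ} (h : Sz m a c i0 j0) (h1 : Fz m a c i1 j1) :
    Gd m 2 (i0 + i1) (j0 + j1) :=
  ⟨a, c, i0, j0, [(i1, j1)], h, rfl, by simpa using h1, by simp, by simp⟩

theorem Gd.mk3 {m : ℕ} {a c : ℤ} {i0 j0 i1 j1 i2 j2 : ℕ} (h : Sz m a c i0 j0)
    (h1 : Fz m a c i1 j1) (h2 : Fz m a c i2 j2) :
    Gd m 3 (i0 + (i1 + i2)) (j0 + (j1 + j2)) := by
  refine ⟨a, c, i0, j0, [(i1, j1), (i2, j2)], h, rfl, ?_, by simp, by simp⟩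
  intro p hp
  simp only [List.mem_cons, List.not_mem_nil, or_false] at hp
  rcases hp with rfl | rfl
  · exact h1
  · exact h2

/-- k = 2, displacements 1 and 2. -/
theorem T2A {m α γ : ℕ} (h1 : m ≤ α + 2 * γ) (h2 : α + 2 * γ + 3 ≤ 2 * m)
    (h3 : m % 2 = 0 ∨ 1 ≤ α) : Gd m 2 α γ := by
  obtain ⟨j, hj⟩ : ∃ j, j = min γ (m / 2) := ⟨_, rfl⟩
  have e1 : j ≤ γ := by omega
  have e2 : 2 * j ≤ m := by omega
  have e3 : m - 2 * j ≤ α := by omega
  have hF : Fz m 1 2 (m - 2 * j) j := F12 (by omega)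
  have hS : Sz m 1 2 (α - (m - 2 * j)) (γ - j) := S12 (by omega)
  have := Gd.mk2 hS hF
  have r1 : α - (m - 2 * j) + (m - 2 * j) = α := by omega
  have r2 : γ - j + j = γ := by omega
  rwa [r1, r2] at this

/-- k = 2, displacements 1 and -1. -/
theorem T2B {m α : ℕ} (h3 : 3 ≤ m) (h1 : α + 2 ≤ m) : Gd m 2 α α := by
  obtain ⟨j, hj⟩ : ∃ j, j = min α (m / 2) := ⟨_, rfl⟩
  have hF : Fz m 1 (-1) j j := F11 (by omega)
  have hS : Sz m 1 (-1) (α - j) (α - j) := S11 (by omega)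
  have := Gd.mk2 hS hF
  have r1 : α - j + j = α := by omega
  rwa [r1] at this

section pathcases

variable (H0 : S_path0) (H1 : S_path1)

include H0 H1

/-- k = 2, displacements 1 and -2, cycles in the full coset. -/
theorem T2C_core {m D u d f : ℕ} (_ : 1 ≤ d) (hf : (u + 1 ≤ d ∧ f = 0) ∨ (1 ≤ u ∧ u ≤ d ∧ f = 1))
    (hc : u + 2 * d + 3 * (d + D - m / 3) + 3 + f ≤ m) :
    Gd m 2 (u + 2 * d + D) (u + 2 * d + 2 * D) := by
  obtain ⟨t, ht⟩ : ∃ t, t = min (d + D) (m / 3) := ⟨_, rfl⟩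
  obtain ⟨t', ht'⟩ : ∃ t', t' = d + D - t := ⟨_, rfl⟩
  have hF : Fz m 1 (-2) (2 * t) t := Fcyc (by omega)
  have hS : Sz m 1 (-2) (u + 2 * t') (u + d + t') := by
    rcases hf with ⟨h1, h2⟩ | ⟨h1, h2, h3⟩
    · exact H0 m u d t' h1 (by omega)
    · exact H1 m u d t' h1 h2 (by omega)
  have := Gd.mk2 hS hF
  have r1 : u + 2 * t' + 2 * t = u + 2 * d + 2 * D := by omega
  have r2 : u + d + t' + t = u + 2 * d + D := by omega
  rw [r1, r2] at this
  exact this.symm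

/-- Case C in parameters: `m = e + 2 D + 1 + s`, `γ = e + 2 D`, `α = e + D`,
`β = D - 1 + 2 s`. -/
theorem T2C_par {m D e s : ℕ} (hm : m = e + 2 * D + 1 + s) (hD : 1 ≤ D) (he : 2 * s ≤ e)
    (hb : 3 ≤ D + 2 * s) : Gd m 2 (e + D) (e + 2 * D) := by
  by_cases he0 : e = 0
  · -- e = 0, s = 0
    subst he0
    have hs : s = 0 := by omega
    subst hs
    obtain ⟨t, ht⟩ : ∃ t, t = min D (m / 3) := ⟨_, rfl⟩
    have hF : Fz m 1 (-2) (2 * t) t := Fcyc (by omega)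
    have hS : Sz m 1 (-2) (2 * (D - t)) (D - t) := Se0 (by omega)
    have := Gd.mk2 hS hF
    have r1 : 2 * (D - t) + 2 * t = 0 + 2 * D := by omega
    have r2 : D - t + t = 0 + D := by omega
    rw [r1, r2] at this
    exact this.symm
  by_cases he1 : e = 1
  · subst he1
    have hs : s = 0 := by omega
    subst hs
    -- β = D - 1
    obtain ⟨β, hβ⟩ : ∃ β, D = β + 1 := ⟨D - 1, by omega⟩
    subst hβ
    have hmod : β % 3 = 0 ∨ β % 3 = 1 ∨ β % 3 = 2 := by omega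
    rcases hmod with h3 | h3 | h3
    · obtain ⟨b, hb⟩ : ∃ b, β = 3 * b := ⟨β / 3, by omega⟩
      subst hb
      have hF : Fz m 1 (-2) 2 (2 * 2 + (3 * b - 1)) := Fpath (by omega)
      have hS : Sz m 1 (-2) (b + 2 * b) (b + b + b) := H1 m b b b (by omega) (by omega) (by omega)
      have := Gd.mk2 hS hF
      have r1 : b + 2 * b + 2 = 1 + (3 * b + 1) := by omega
      have r2 : b + b + b + (2 * 2 + (3 * b - 1)) = 1 + 2 * (3 * b + 1) := by omega
      rwa [r1, r2] at this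
    · obtain ⟨b, hb⟩ : ∃ b, β = 3 * b + 1 := ⟨β / 3, by omega⟩
      subst hb
      have hF : Fz m 1 (-2) 4 (2 * 4 + (3 * b + 1 - 4)) := Fpath (by omega)
      have hS : Sz m 1 (-2) (b - 1 + 2 * b) (b - 1 + (b + 1) + b) :=
        H0 m (b - 1) (b + 1) b (by omega) (by omega)
      have := Gd.mk2 hS hF
      have r1 : b - 1 + 2 * b + 4 = 1 + (3 * b + 1 + 1) := by omega
      have r2 : b - 1 + (b + 1) + b + (2 * 4 + (3 * b + 1 - 4)) = 1 + 2 * (3 * b + 1 + 1) := by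
        omega
      rwa [r1, r2] at this
    · obtain ⟨b, hb⟩ : ∃ b, β = 3 * b + 2 := ⟨β / 3, by omega⟩
      subst hb
      have hF : Fz m 1 (-2) 2 (2 * 2 + (3 * b + 2 - 1)) := Fpath (by omega)
      have hS : Sz m 1 (-2) (b + 2 * (b + 1)) (b + (b + 1) + (b + 1)) :=
        H0 m b (b + 1) (b + 1) (by omega) (by omega)
      have := Gd.mk2 hS hF
      have r1 : b + 2 * (b + 1) + 2 = 1 + (3 * b + 2 + 1) := by omega
      have r2 : b + (b + 1) + (b + 1) + (2 * 2 + (3 * b + 2 - 1)) = 1 + 2 * (3 * b + 2 + 1) := by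
        omega
      rwa [r1, r2] at this
  have hmod : e % 3 = 0 ∨ e % 3 = 1 ∨ e % 3 = 2 := by omega
  rcases hmod with h3 | h3 | h3
  · obtain ⟨k, hk⟩ : ∃ k, e = 3 * k := ⟨e / 3, by omega⟩
    subst hk
    have key : 3 * k + 3 * (k + D - m / 3) + 3 + 1 ≤ m := by
      rcases (by omega : (D = 3 ∧ s = 0) ∨ (D = 1 ∧ s = 1) ∨ 4 ≤ D + 2 * s) with
        ⟨h1, h2⟩ | ⟨h1, h2⟩ | h1
      · subst h1; subst h2; omega
      · subst h1; subst h2; omega
      · omega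
    have := T2C_core H0 H1 (m := m) (D := D) (u := k) (d := k) (f := 1) (by omega)
      (Or.inr ⟨by omega, le_refl _, rfl⟩) (by omega)
    have r1 : k + 2 * k + D = 3 * k + D := by omega
    have r2 : k + 2 * k + 2 * D = 3 * k + 2 * D := by omega
    rwa [r1, r2] at this
  · obtain ⟨k, hk⟩ : ∃ k, e = 3 * k + 1 := ⟨e / 3, by omega⟩
    subst hk
    by_cases hβ : D + 2 * s = 3
    · -- β = 2
      have hmm : m % 3 = 2 := by omega
      obtain ⟨q, hq⟩ : ∃ q, m = 3 * q + 2 := ⟨m / 3, by omega⟩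
      have hF : Fz m 1 (-2) q (2 * q + 1) := Fpath (by omega)
      rcases (by omega : (s = 0 ∧ D = 3) ∨ (s = 1 ∧ D = 1)) with ⟨hs, hD'⟩ | ⟨hs, hD'⟩
      · subst hs; subst hD'
        have hS : Sz m 1 (-2) (0 + 2 * (q - 1)) (0 + 1 + (q - 1)) :=
          H0 m 0 1 (q - 1) (by omega) (by omega)
        have := Gd.mk2 hS hF
        have r1 : 0 + 2 * (q - 1) + q = 3 * k + 1 + 3 := by omega
        have r2 : 0 + 1 + (q - 1) + (2 * q + 1) = 3 * k + 1 + 2 * 3 := by omega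
        rwa [r1, r2] at this
      · subst hs; subst hD'
        have hS : Sz m 1 (-2) (2 * (q - 1) + 1) (q - 1) := SII (by omega)
        have := Gd.mk2 hS hF
        have r1 : 2 * (q - 1) + 1 + q = 3 * k + 1 + 1 := by omega
        have r2 : q - 1 + (2 * q + 1) = 3 * k + 1 + 2 * 1 := by omega
        rwa [r1, r2] at this
    · have key : 3 * k + 1 + 3 * (k + 1 + D - m / 3) + 3 ≤ m := by
        rcases (by omega : (D = 4 ∧ s = 0) ∨ (D = 2 ∧ s = 1) ∨ (D = 5 ∧ s = 0) ∨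
          (D = 3 ∧ s = 1) ∨ (D = 1 ∧ s = 2) ∨ 6 ≤ D + 2 * s) with
          ⟨h1, h2⟩ | ⟨h1, h2⟩ | ⟨h1, h2⟩ | ⟨h1, h2⟩ | ⟨h1, h2⟩ | h1
        · subst h1; subst h2; omega
        · subst h1; subst h2; omega
        · subst h1; subst h2; omega
        · subst h1; subst h2; omega
        · subst h1; subst h2; omega
        · omega
      have := T2C_core H0 H1 (m := m) (D := D) (u := k - 1) (d := k + 1) (f := 0) (by omega)
        (Or.inl ⟨by omega, rfl⟩) (by omega)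
      have r1 : k - 1 + 2 * (k + 1) + D = 3 * k + 1 + D := by omega
      have r2 : k - 1 + 2 * (k + 1) + 2 * D = 3 * k + 1 + 2 * D := by omega
      rwa [r1, r2] at this
  · obtain ⟨k, hk⟩ : ∃ k, e = 3 * k + 2 := ⟨e / 3, by omega⟩
    subst hk
    have key : 3 * k + 2 + 3 * (k + 1 + D - m / 3) + 3 ≤ m := by
      rcases (by omega : (D = 3 ∧ s = 0) ∨ (D = 1 ∧ s = 1) ∨ (D = 4 ∧ s = 0) ∨
          (D = 2 ∧ s = 1) ∨ 5 ≤ D + 2 * s) with
          ⟨h1, h2⟩ | ⟨h1, h2⟩ | ⟨h1, h2⟩ | ⟨h1, h2⟩ | h1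
      · subst h1; subst h2; omega
      · subst h1; subst h2; omega
      · subst h1; subst h2; omega
      · subst h1; subst h2; omega
      · omega
    have := T2C_core H0 H1 (m := m) (D := D) (u := k) (d := k + 1) (f := 0) (by omega)
      (Or.inl ⟨by omega, rfl⟩) (by omega)
    have r1 : k + 2 * (k + 1) + D = 3 * k + 2 + D := by omega
    have r2 : k + 2 * (k + 1) + 2 * D = 3 * k + 2 + 2 * D := by omega
    rwa [r1, r2] at this

theorem T2C {m α β γ : ℕ} (h : α + β + γ + 3 = 2 * m) (hb : 2 ≤ β) (h1 : β < α) (h2 : α < γ)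
    (h3 : γ < m) : Gd m 2 α γ := by
  obtain ⟨s, hs⟩ : ∃ s, m = γ + 1 + s := ⟨m - γ - 1, by omega⟩
  obtain ⟨D, hD⟩ : ∃ D, γ = α + D := ⟨γ - α, by omega⟩
  obtain ⟨e, he⟩ : ∃ e, α = e + D := ⟨α - D, by omega⟩
  have := T2C_par H0 H1 (m := m) (D := D) (e := e) (s := s) (by omega) (by omega) (by omega)
    (by omega)
  have r2 : e + 2 * D = γ := by omega
  rw [r2, ← he] at this
  exact this

theorem two_le {m α β γ : ℕ} (hm : 5 ≤ m) (hβ : β < m) (hγ : γ < m)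
    (h : α + β + γ + 3 = 2 * m) (hαγ : α ≤ γ)
    (x1 : ¬ (β + 2 = m ∧ α = 0 ∧ γ + 1 = m))
    (x2 : ¬ (β = 0 ∧ α + 2 = m ∧ γ + 1 = m))
    (x3 : ¬ (β = 1 ∧ α + 3 = m ∧ γ + 1 = m))
    (x4 : ¬ (m % 2 = 1 ∧ α = 0 ∧ β + 1 = m ∧ γ + 2 = m)) : Gd m 2 α γ := by
  rcases Nat.lt_or_ge α γ with hlt | hge
  · by_cases c1 : γ ≤ β
    · exact T2A (by omega) (by omega) (by omega)
    · by_cases c2 : α ≤ β
      · exact (T2A (α := γ) (γ := α) (by omega) (by omega) (by omega)).symm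
      · exact T2C H0 H1 h (by omega) (by omega) hlt hγ
  · have : γ = α := by omega
    subst this
    exact T2B (by omega) (by omega)

theorem two {m α β γ : ℕ} (hm : 5 ≤ m) (hα : α < m) (hβ : β < m) (hγ : γ < m)
    (h : α + β + γ + 3 = 2 * m)
    (x1 : ¬ (β + 2 = m ∧ ((α = 0 ∧ γ + 1 = m) ∨ (α + 1 = m ∧ γ = 0))))
    (x2 : ¬ (β = 0 ∧ ((α + 1 = m ∧ γ + 2 = m) ∨ (α + 2 = m ∧ γ + 1 = m))))
    (x3 : ¬ (β = 1 ∧ ((α + 1 = m ∧ γ + 3 = m) ∨ (α + 3 = m ∧ γ + 1 = m))))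
    (x4 : ¬ (m % 2 = 1 ∧ β + 1 = m ∧ ((α = 0 ∧ γ + 2 = m) ∨ (α + 2 = m ∧ γ = 0)))) :
    Gd m 2 α γ := by
  rcases Nat.le_total α γ with hle | hle
  · exact two_le H0 H1 hm hβ hγ h hle (by omega) (by omega) (by omega) (by omega)
  · exact (two_le H0 H1 (α := γ) (γ := α) hm hβ hα (by omega) hle (by omega) (by omega)
      (by omega) (by omega)).symm

end pathcases

/-- k = 3, displacements 1 and 2. -/
theorem three {m r J i : ℕ} (h1 : r + 3 ≤ m) (h2 : J ≤ 2 * (m / 2)) (h3 : i + 2 * J = r + 2 * m) :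
    Gd m 3 i J := by
  obtain ⟨j, hj⟩ : ∃ j, j = min J (m / 2) := ⟨_, rfl⟩
  have hF : Fz m 1 2 (m - 2 * j) j := F12 (by omega)
  have hF' : Fz m 1 2 (m - 2 * (J - j)) (J - j) := F12 (by omega)
  have hS : Sz m 1 2 r 0 := S12 (by omega)
  have := Gd.mk3 hS hF hF'
  have r1 : r + (m - 2 * j + (m - 2 * (J - j))) = i := by omega
  have r2 : 0 + (j + (J - j)) = J := by omega
  rwa [r1, r2] at this

end Pool.Agent.H96.RC
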