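import Pool.Agent.H96.RC.Stm

set_option autoImplicit false

/-!
Assembling motions over the cosets of a cyclic subgroup: `t_asm : S_asm`.
-/

namespace Pool.Agent.H96.RC

open Finset

section asm

variable {A : Type} [AddCommGroup A] [Fintype A] [DecidableEq A]

/-- the parametrisation of a coset -/
def asm_phi (g r : A) (n : ℤ) : A := r + n • g

omit [Fintype A] [DecidableEq A] in
lemma asm_phi_add (g r : A) (n a : ℤ) : asm_phi g r (n + a) = asm_phi g r n + a • g := by
  unfold asm_phi
  rw [add_zsmul, add_assoc]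

omit [Fintype A] [DecidableEq A] in
lemma asm_phi_eq {g r : A} {m : ℕ} (hg : addOrderOf g = m) {n n' : ℤ} :
    asm_phi g r n = asm_phi g r n' ↔ (m : ℤ) ∣ n - n' := by
  unfold asm_phi
  rw [add_left_cancel_iff, ← hg, addOrderOf_dvd_iff_zsmul_eq_zero, sub_zsmul]
  rw [← sub_eq_add_neg]
  exact (sub_eq_zero (a := n • g) (b := n' • g)).symm

omit [Fintype A] [DecidableEq A] in
lemma asm_phi_inj {g r : A} {m : ℕ} (hg : addOrderOf g = m) {s n n' : ℤ}
    (hn : s ≤ n ∧ n < s + m) (hn' : s ≤ n' ∧ n' < s + m)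
    (h : asm_phi g r n = asm_phi g r n') : n = n' := by
  rw [asm_phi_eq hg] at h
  have h1 : n - n' = 0 := by
    apply Int.eq_zero_of_abs_lt_dvd h
    rw [abs_lt]
    constructor <;> omega
  omega

omit [Fintype A] in
lemma asm_win {g r : A} {m : ℕ} (hm : 0 < m) (hg : addOrderOf g = m) (s : ℤ) (x : A) :
    x ∈ (Ico s (s + m)).image (asm_phi g r) ↔ ∃ n : ℤ, x = asm_phi g r n := by
  rw [Finset.mem_image]
  constructor
  · rintro ⟨n, _, h⟩
    exact ⟨n, h.symm⟩
  · rintro ⟨n, rfl⟩
    have hm' : (0 : ℤ) < m := by exact_mod_cast hm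
    refine ⟨s + (n - s) % m, ?_, ?_⟩
    · rw [Finset.mem_Ico]
      have h1 := Int.emod_nonneg (n - s) hm'.ne'
      have h2 := Int.emod_lt_of_pos (n - s) hm'
      constructor <;> omega
    · rw [asm_phi_eq hg]
      refine ⟨-((n - s) / m), ?_⟩
      have h3 := Int.emod_add_mul_ediv (n - s) m
      linarith

/-- the coset of `r` -/
noncomputable def asm_C (g : A) (m : ℕ) (r : A) : Finset A := (Ico (0 : ℤ) (0 + m)).image (asm_phi g r)

omit [Fintype A] in
lemma asm_mem_C {g : A} {m : ℕ} (hm : 0 < m) (hg : addOrderOf g = m) {r x : A} :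
    x ∈ asm_C g m r ↔ ∃ n : ℤ, x = asm_phi g r n := asm_win hm hg 0 x

omit [Fintype A] in
lemma asm_win_eq {g r : A} {m : ℕ} (hm : 0 < m) (hg : addOrderOf g = m) (s : ℤ) :
    (Ico s (s + m)).image (asm_phi g r) = asm_C g m r := by
  ext x
  rw [asm_win hm hg, asm_mem_C hm hg]

omit [Fintype A] in
lemma asm_card_C {g : A} {m : ℕ} (hg : addOrderOf g = m) (r : A) :
    (asm_C g m r).card = m := by
  unfold asm_C
  rw [Finset.card_image_of_injOn, Int.card_Ico]
  · simp
  · intro n hn n' hn' h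
    rw [Finset.coe_Ico, Set.mem_Ico] at hn hn'
    exact asm_phi_inj hg hn hn' h

omit [Fintype A] in
lemma asm_C_add {g : A} {m : ℕ} (hm : 0 < m) (hg : addOrderOf g = m) {r x : A}
    (h : x + g ∈ asm_C g m r) : x ∈ asm_C g m r := by
  rw [asm_mem_C hm hg] at h ⊢
  obtain ⟨n, hn⟩ := h
  refine ⟨n - 1, ?_⟩
  have h1 := asm_phi_add g r (n - 1) 1
  rw [sub_add_cancel, one_zsmul] at h1
  rw [h1] at hn
  exact add_right_cancel hn

omit [Fintype A] in
lemma asm_closed {g : A} {m : ℕ} {U : Finset A}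
    (hU : ∀ x ∈ U, x + g ∈ U) {r : A} (hr : r ∈ U) : asm_C g m r ⊆ U := by
  intro x hx
  unfold asm_C at hx
  rw [Finset.mem_image] at hx
  obtain ⟨n, hn, rfl⟩ := hx
  rw [Finset.mem_Ico] at hn
  obtain ⟨k, rfl⟩ := Int.eq_ofNat_of_zero_le hn.1
  clear hn
  induction k with
  | zero =>
    unfold asm_phi
    simpa using hr
  | succ k ih =>
    have h1 := asm_phi_add g r (k : ℤ) 1
    rw [one_zsmul] at h1
    push_cast
    rw [h1]
    exact hU _ ih

omit [Fintype A] in
lemma asm_map {g r : A} {m : ℕ} (hg : addOrderOf g = m) {a c s s' : ℤ}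
    {D I : Finset ℤ} {i j : ℕ} (h : Mv a c D I i j) (hD : D ⊆ Ico s (s + m))
    (hI : I ⊆ Ico s' (s' + m)) :
    Mv (a • g) (c • g) (D.image (asm_phi g r)) (I.image (asm_phi g r)) i j := by
  refine h.map (asm_phi g r) (fun x => asm_phi_add g r x a) (fun x => asm_phi_add g r x c) ?_ ?_
  · intro x hx y hy hxy
    have h1 := hD hx
    have h2 := hD hy
    rw [Finset.mem_Ico] at h1 h2
    exact asm_phi_inj hg h1 h2 hxy
  · intro x hx y hy hxy
    have h1 := hI hx
    have h2 := hI hy
    rw [Finset.mem_Ico] at h1 h2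
    exact asm_phi_inj hg h1 h2 hxy

omit [Fintype A] in
/-- full cosets -/
theorem asm_full {g : A} {m : ℕ} (hm : 0 < m) (hg : addOrderOf g = m) (a c : ℤ) :
    ∀ (l : List (ℕ × ℕ)), (∀ p ∈ l, Fz m a c p.1 p.2) →
    ∀ U : Finset A, (∀ x ∈ U, x + g ∈ U) → U.card = l.length * m →
      Mv (a • g) (c • g) U U (l.map Prod.fst).sum (l.map Prod.snd).sum := by
  intro l
  induction l with
  | nil =>
    intro _ U _ _
    exact Mv.fix _ _ (Finset.Subset.refl U)
  | cons p l ih =>
    intro hl U hU hc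
    have hpos : 0 < U.card := by
      rw [hc, List.length_cons]
      positivity
    obtain ⟨r, hr⟩ := Finset.card_pos.1 hpos
    have hCU := asm_closed (m := m) hU hr
    obtain ⟨s, s', h1⟩ := hl p List.mem_cons_self
    have h2 := asm_map (r := r) hg h1 (Finset.Subset.refl _) (Finset.Subset.refl _)
    rw [asm_win_eq hm hg, asm_win_eq hm hg] at h2
    have h3 := ih (fun q hq => hl q (List.mem_cons_of_mem _ hq)) (U \ asm_C g m r) (by
      intro x hx
      rw [Finset.mem_sdiff] at hx ⊢
      exact ⟨hU x hx.1, fun h => hx.2 (asm_C_add hm hg h)⟩) (by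
      rw [Finset.card_sdiff_of_subset hCU, asm_card_C hg, hc, List.length_cons, Nat.succ_mul]
      omega)
    have h4 := h2.union h3 Finset.disjoint_sdiff Finset.disjoint_sdiff
    rw [Finset.union_sdiff_of_subset hCU] at h4
    rw [List.map_cons, List.sum_cons, List.map_cons, List.sum_cons]
    exact h4

end asm

theorem t_asm : S_asm := by
  intro A _ _ _ m k i j hm hexp hcard hgd
  obtain ⟨g, hg⟩ : ∃ g : A, addOrderOf g = m := by
    obtain ⟨g, hg⟩ := AddMonoid.exists_addOrderOf_eq_exponent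
      (AddMonoid.ExponentExists.of_finite (G := A))
    exact ⟨g, hg.trans hexp⟩
  obtain ⟨a, c, i0, j0, l, hS, hlen, hl, hi, hj⟩ := hgd
  obtain ⟨s, s', za, zc, wa, wc, hza, hzc, hwa, hwc, b1, b2, b3, b4, b5, b6, b7, b8, b9, b10,
    n1, n2, n3, hM⟩ := hS
  -- values of the representatives
  have per : ∀ n x : ℤ, (x = n ∨ x = n + m) → asm_phi g 0 x = n • g := by
    intro n x hx
    have h0 : asm_phi g 0 n = n • g := by unfold asm_phi; rw [zero_add]
    rcases hx with rfl | rfl
    · exact h0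
    · rw [← h0, asm_phi_eq hg]
      exact ⟨1, by ring⟩
  have e0 : asm_phi g 0 0 = 0 := by unfold asm_phi; simp
  have eza := per a za hza
  have ezc := per c zc hzc
  have ewa := per a wa hwa
  have ewc := per c wc hwc
  have H0 : ∀ n : ℤ, n • g ∈ asm_C g m (0 : A) := by
    intro n
    rw [asm_mem_C hm hg]
    exact ⟨n, (per n n (Or.inl rfl)).symm⟩
  have H00 : (0 : A) ∈ asm_C g m (0 : A) := by
    have := H0 0
    rwa [zero_zsmul] at this
  have ha0 : a • g ≠ 0 := by
    rw [← eza]
    intro h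
    replace h := h.trans e0.symm
    exact n1 (asm_phi_inj hg ⟨b3, b4⟩ ⟨b1, b2⟩ h)
  have hc0 : c • g ≠ 0 := by
    rw [← ezc]
    intro h
    replace h := h.trans e0.symm
    exact n2 (asm_phi_inj hg ⟨b5, b6⟩ ⟨b1, b2⟩ h)
  have hac : a • g ≠ c • g := by
    rw [← eza, ← ezc]
    intro h
    exact n3 (asm_phi_inj hg ⟨b3, b4⟩ ⟨b5, b6⟩ h)
  -- the special coset
  have h1 := asm_map (r := (0 : A)) hg hM Finset.sdiff_subset Finset.sdiff_subset
  have hD : (Ico s (s + m) \ {0, za, zc}).image (asm_phi g 0) =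
      asm_C g m (0 : A) \ {0, a • g, c • g} := by
    ext x
    rw [Finset.mem_image, Finset.mem_sdiff, ← asm_win_eq hm hg s, Finset.mem_image]
    constructor
    · rintro ⟨n, hn, rfl⟩
      rw [Finset.mem_sdiff] at hn
      refine ⟨⟨n, hn.1, rfl⟩, ?_⟩
      have hw := Finset.mem_Ico.1 hn.1
      intro hx
      apply hn.2
      rw [Finset.mem_insert, Finset.mem_insert, Finset.mem_singleton] at hx ⊢
      rcases hx with hx | hx | hx
      · left
        exact asm_phi_inj hg hw ⟨b1, b2⟩ (hx.trans e0.symm)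
      · right; left
        exact asm_phi_inj hg hw ⟨b3, b4⟩ (hx.trans eza.symm)
      · right; right
        exact asm_phi_inj hg hw ⟨b5, b6⟩ (hx.trans ezc.symm)
    · rintro ⟨⟨n, hn, rfl⟩, hx⟩
      refine ⟨n, ?_, rfl⟩
      rw [Finset.mem_sdiff]
      refine ⟨hn, fun h => hx ?_⟩
      rw [Finset.mem_insert, Finset.mem_insert, Finset.mem_singleton] at h ⊢
      rcases h with rfl | rfl | rfl
      · left; exact e0
      · right; left; exact eza
      · right; right; exact ezc
  rw [hD] at h1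
  have hI : (Ico s' (s' + m) \ {wa, wc}).image (asm_phi g 0) ⊆
      asm_C g m (0 : A) \ {a • g, c • g} := by
    intro x
    rw [Finset.mem_image, Finset.mem_sdiff, ← asm_win_eq hm hg s', Finset.mem_image]
    rintro ⟨n, hn, rfl⟩
    rw [Finset.mem_sdiff] at hn
    refine ⟨⟨n, hn.1, rfl⟩, ?_⟩
    have hw := Finset.mem_Ico.1 hn.1
    intro hx
    apply hn.2
    rw [Finset.mem_insert, Finset.mem_singleton] at hx ⊢
    rcases hx with hx | hx
    · left
      exact asm_phi_inj hg hw ⟨b7, b8⟩ (hx.trans ewa.symm)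
    · right
      exact asm_phi_inj hg hw ⟨b9, b10⟩ (hx.trans ewc.symm)
  have h2 := h1.mono hI
  -- the other cosets
  have h3 := asm_full hm hg a c l hl (univ \ asm_C g m (0 : A)) (by
      intro x hx
      rw [Finset.mem_sdiff] at hx ⊢
      exact ⟨Finset.mem_univ _, fun h => hx.2 (asm_C_add hm hg h)⟩) (by
      rw [Finset.card_sdiff_of_subset (Finset.subset_univ _), asm_card_C hg, Finset.card_univ,
        hcard, ← hlen, Nat.succ_mul]
      omega)
  have h4 := h2.union h3
    (Finset.disjoint_of_subset_left Finset.sdiff_subset Finset.disjoint_sdiff)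
    (Finset.disjoint_of_subset_left Finset.sdiff_subset Finset.disjoint_sdiff)
  have u1 : asm_C g m (0 : A) \ {0, a • g, c • g} ∪ univ \ asm_C g m (0 : A) =
      univ \ {0, a • g, c • g} := by
    ext x
    simp only [Finset.mem_union, Finset.mem_sdiff, Finset.mem_univ, true_and, Finset.mem_insert,
      Finset.mem_singleton]
    constructor
    · rintro (h | h)
      · exact h.2
      · rintro (rfl | rfl | rfl)
        · exact h H00
        · exact h (H0 _)
        · exact h (H0 _)
    · intro h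
      by_cases hx : x ∈ asm_C g m (0 : A)
      · exact Or.inl ⟨hx, h⟩
      · exact Or.inr hx
  have u2 : asm_C g m (0 : A) \ {a • g, c • g} ∪ univ \ asm_C g m (0 : A) =
      univ \ {a • g, c • g} := by
    ext x
    simp only [Finset.mem_union, Finset.mem_sdiff, Finset.mem_univ, true_and, Finset.mem_insert,
      Finset.mem_singleton]
    constructor
    · rintro (h | h)
      · exact h.2
      · rintro (rfl | rfl)
        · exact h (H0 _)
        · exact h (H0 _)
    · intro h
      by_cases hx : x ∈ asm_C g m (0 : A)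
      · exact Or.inl ⟨hx, h⟩
      · exact Or.inr hx
  rw [u1, u2, ← hi, ← hj] at h4
  exact ⟨a • g, c • g, ha0, hc0, hac, h4⟩

end Pool.Agent.H96.RC
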