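import Mathlib

set_option autoImplicit false

/-!
Rainbow labelings of caterpillars with three spine vertices (MP_b97a60_co).

`Mv a c D I i j`: the elements of the finite set `D` can be moved injectively into `I`
so that exactly `i` elements move by `a`, exactly `j` elements move by `c`,
and all the others stay.
-/

namespace Pool.Agent.H96.RC

open Finset

/-- The displacement map: elements of `X` move by `a`, the other elements of `Z` move by `c`,
all the others stay. -/
def sh {G : Type} [AddCommGroup G] [DecidableEq G] (a c : G) (X Z : Finset G) (x : G) : G :=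
  if x ∈ X then x + a else if x ∈ Z then x + c else x

/-- Injective motion of `D` into `I` with `i` displacements `a` and `j` displacements `c`. -/
def Mv {G : Type} [AddCommGroup G] [DecidableEq G] (a c : G) (D I : Finset G) (i j : ℕ) : Prop :=
  ∃ X Z : Finset G, X ⊆ D ∧ Z ⊆ D ∧ Disjoint X Z ∧ X.card = i ∧ Z.card = j ∧
    (∀ x ∈ D, ∀ y ∈ D, sh a c X Z x = sh a c X Z y → x = y) ∧ ∀ x ∈ D, sh a c X Z x ∈ I

/-- Interval version: the integers `x ≤ t < y` are moved onto `x + σ ≤ t < y + σ`. -/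
def Tl (a c σ x y : ℤ) (i j : ℕ) : Prop :=
  Mv a c (Ico x y) (Ico (x + σ) (y + σ)) i j

/-- A full coset of the cyclic group of order `m` can be permuted with `i` displacements `a`
and `j` displacements `c` (written with integers in two windows of length `m`). -/
def Fz (m : ℕ) (a c : ℤ) (i j : ℕ) : Prop :=
  ∃ s s' : ℤ, Mv a c (Ico s (s + m)) (Ico s' (s' + m)) i j

/-- The special coset: `0`, `a`, `c` (modulo `m`) are removed from the domain and `a`, `c` are
removed from the range. `za, wa` represent `a` in the two windows, `zc, wc` represent `c`. -/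
def Sz (m : ℕ) (a c : ℤ) (i j : ℕ) : Prop :=
  ∃ s s' za zc wa wc : ℤ,
    (za = a ∨ za = a + m) ∧ (zc = c ∨ zc = c + m) ∧
    (wa = a ∨ wa = a + m) ∧ (wc = c ∨ wc = c + m) ∧
    s ≤ 0 ∧ 0 < s + m ∧ s ≤ za ∧ za < s + m ∧ s ≤ zc ∧ zc < s + m ∧
    s' ≤ wa ∧ wa < s' + m ∧ s' ≤ wc ∧ wc < s' + m ∧
    za ≠ 0 ∧ zc ≠ 0 ∧ za ≠ zc ∧
    Mv a c (Ico s (s + m) \ {0, za, zc}) (Ico s' (s' + m) \ {wa, wc}) i j

/-- `k` cosets (one of them special) realise `i` displacements `a` and `j` displacements `c`. -/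
def Gd (m k i j : ℕ) : Prop :=
  ∃ (a c : ℤ) (i0 j0 : ℕ) (l : List (ℕ × ℕ)), Sz m a c i0 j0 ∧ l.length + 1 = k ∧
    (∀ p ∈ l, Fz m a c p.1 p.2) ∧ i = i0 + (l.map Prod.fst).sum ∧ j = j0 + (l.map Prod.snd).sum

/-- Normalised labelling of the caterpillar `C(i, *, j)` by the group `A`: the middle spine
vertex has label `0`, the others `a` and `c`. -/
def Lab (A : Type) [AddCommGroup A] [Fintype A] [DecidableEq A] (i j : ℕ) : Prop :=
  ∃ a c : A, a ≠ 0 ∧ c ≠ 0 ∧ a ≠ c ∧ Mv a c (univ \ {0, a, c}) (univ \ {a, c}) i j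

section basic

variable {G : Type} [AddCommGroup G] [DecidableEq G]

theorem Mv.mono {a c : G} {D I I' : Finset G} {i j : ℕ} (h : Mv a c D I i j) (hI : I ⊆ I') :
    Mv a c D I' i j := by
  obtain ⟨X, Z, h1, h2, h3, h4, h5, h6, h7⟩ := h
  exact ⟨X, Z, h1, h2, h3, h4, h5, h6, fun x hx => hI (h7 x hx)⟩

theorem Mv.symm {a c : G} {D I : Finset G} {i j : ℕ} (h : Mv a c D I i j) :
    Mv c a D I j i := by
  obtain ⟨X, Z, h1, h2, h3, h4, h5, h6, h7⟩ := h
  have key : ∀ x, sh c a Z X x = sh a c X Z x := by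
    intro x
    unfold sh
    by_cases hx : x ∈ X
    · have hz : x ∉ Z := fun hz => (Finset.disjoint_left.mp h3 hx hz)
      simp [hx, hz]
    · simp [hx]
  refine ⟨Z, X, h2, h1, h3.symm, h5, h4, ?_, ?_⟩
  · intro x hx y hy; rw [key, key]; exact h6 x hx y hy
  · intro x hx; rw [key]; exact h7 x hx

theorem Mv.fix (a c : G) {D I : Finset G} (h : D ⊆ I) : Mv a c D I 0 0 := by
  refine ⟨∅, ∅, by simp, by simp, by simp, by simp, by simp, ?_, ?_⟩
  · intro x _ y _; simp [sh]
  · intro x hx; simpa [sh] using h hx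

theorem Mv.union {a c : G} {D I D' I' : Finset G} {i j i' j' : ℕ} (h : Mv a c D I i j)
    (h' : Mv a c D' I' i' j') (hD : Disjoint D D') (hI : Disjoint I I') :
    Mv a c (D ∪ D') (I ∪ I') (i + i') (j + j') := by
  obtain ⟨X, Z, h1, h2, h3, h4, h5, h6, h7⟩ := h
  obtain ⟨X', Z', h1', h2', h3', h4', h5', h6', h7'⟩ := h'
  have dD : ∀ x, x ∈ D → x ∈ D' → False := fun x hx hx' => Finset.disjoint_left.mp hD hx hx'
  have e1 : ∀ x ∈ D, sh a c (X ∪ X') (Z ∪ Z') x = sh a c X Z x := by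
    intro x hx
    have a1 : x ∉ X' := fun h => dD x hx (h1' h)
    have a2 : x ∉ Z' := fun h => dD x hx (h2' h)
    simp [sh, a1, a2]
  have e2 : ∀ x ∈ D', sh a c (X ∪ X') (Z ∪ Z') x = sh a c X' Z' x := by
    intro x hx
    have a1 : x ∉ X := fun h => dD x (h1 h) hx
    have a2 : x ∉ Z := fun h => dD x (h2 h) hx
    simp [sh, a1, a2]
  refine ⟨X ∪ X', Z ∪ Z', Finset.union_subset_union h1 h1', Finset.union_subset_union h2 h2',
    ?_, ?_, ?_, ?_, ?_⟩
  · rw [Finset.disjoint_left]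
    intro x hx hx'
    rw [Finset.mem_union] at hx hx'
    rcases hx with hx | hx <;> rcases hx' with hx' | hx'
    · exact Finset.disjoint_left.mp h3 hx hx'
    · exact dD x (h1 hx) (h2' hx')
    · exact dD x (h2 hx') (h1' hx)
    · exact Finset.disjoint_left.mp h3' hx hx'
  · rw [Finset.card_union_of_disjoint (hD.mono h1 h1'), h4, h4']
  · rw [Finset.card_union_of_disjoint (hD.mono h2 h2'), h5, h5']
  · intro x hx y hy hxy
    rw [Finset.mem_union] at hx hy
    rcases hx with hx | hx <;> rcases hy with hy | hy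
    · rw [e1 x hx, e1 y hy] at hxy; exact h6 x hx y hy hxy
    · rw [e1 x hx, e2 y hy] at hxy
      exact (Finset.disjoint_left.mp hI (h7 x hx) (hxy ▸ h7' y hy)).elim
    · rw [e2 x hx, e1 y hy] at hxy
      exact (Finset.disjoint_left.mp hI (h7 y hy) (hxy ▸ h7' x hx)).elim
    · rw [e2 x hx, e2 y hy] at hxy; exact h6' x hx y hy hxy
  · intro x hx
    rw [Finset.mem_union] at hx ⊢
    rcases hx with hx | hx
    · rw [e1 x hx]; exact Or.inl (h7 x hx)
    · rw [e2 x hx]; exact Or.inr (h7' x hx)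

theorem Mv.map {G' : Type} [AddCommGroup G'] [DecidableEq G'] {a c : G} {D I : Finset G}
    {i j : ℕ} (h : Mv a c D I i j) (φ : G → G') {a' c' : G'}
    (ha : ∀ x, φ (x + a) = φ x + a') (hc : ∀ x, φ (x + c) = φ x + c')
    (hD : ∀ x ∈ D, ∀ y ∈ D, φ x = φ y → x = y) (hI : ∀ x ∈ I, ∀ y ∈ I, φ x = φ y → x = y) :
    Mv a' c' (D.image φ) (I.image φ) i j := by
  obtain ⟨X, Z, h1, h2, h3, h4, h5, h6, h7⟩ := h
  have m1 : ∀ x ∈ D, (φ x ∈ X.image φ ↔ x ∈ X) := by
    intro x hx
    rw [Finset.mem_image]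
    constructor
    · rintro ⟨y, hy, hxy⟩
      have := hD y (h1 hy) x hx hxy
      rwa [this] at hy
    · intro h; exact ⟨x, h, rfl⟩
  have m2 : ∀ x ∈ D, (φ x ∈ Z.image φ ↔ x ∈ Z) := by
    intro x hx
    rw [Finset.mem_image]
    constructor
    · rintro ⟨y, hy, hxy⟩
      have := hD y (h2 hy) x hx hxy
      rwa [this] at hy
    · intro h; exact ⟨x, h, rfl⟩
  have e : ∀ x ∈ D, sh a' c' (X.image φ) (Z.image φ) (φ x) = φ (sh a c X Z x) := by
    intro x hx
    unfold sh
    rw [if_congr (m1 x hx) rfl rfl, if_congr (m2 x hx) rfl rfl]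
    split_ifs
    · rw [ha]
    · rw [hc]
    · rfl
  refine ⟨X.image φ, Z.image φ, Finset.image_subset_image h1, Finset.image_subset_image h2,
    ?_, ?_, ?_, ?_, ?_⟩
  · rw [Finset.disjoint_left]
    intro x hx hx'
    rw [Finset.mem_image] at hx
    obtain ⟨y, hy, rfl⟩ := hx
    rw [m2 y (h1 hy)] at hx'
    exact Finset.disjoint_left.mp h3 hy hx'
  · rw [Finset.card_image_of_injOn, h4]
    intro x hx y hy hxy
    exact hD x (h1 hx) y (h1 hy) hxy
  · rw [Finset.card_image_of_injOn, h5]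
    intro x hx y hy hxy
    exact hD x (h2 hx) y (h2 hy) hxy
  · intro x hx y hy hxy
    rw [Finset.mem_image] at hx hy
    obtain ⟨x, hx, rfl⟩ := hx
    obtain ⟨y, hy, rfl⟩ := hy
    rw [e x hx, e y hy] at hxy
    rw [h6 x hx y hy (hI _ (h7 x hx) _ (h7 y hy) hxy)]
  · intro x hx
    rw [Finset.mem_image] at hx
    obtain ⟨x, hx, rfl⟩ := hx
    rw [e x hx]
    exact Finset.mem_image_of_mem _ (h7 x hx)

end basic

theorem Tl.comp {a c σ x y z : ℤ} {i j i' j' : ℕ} (h : Tl a c σ x y i j)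
    (h' : Tl a c σ y z i' j') (hxy : x ≤ y) (hyz : y ≤ z) : Tl a c σ x z (i + i') (j + j') := by
  unfold Tl at *
  have h1 : Ico x z = Ico x y ∪ Ico y z := by
    ext t; simp only [Finset.mem_union, Finset.mem_Ico]; omega
  have h2 : Ico (x + σ) (z + σ) = Ico (x + σ) (y + σ) ∪ Ico (y + σ) (z + σ) := by
    ext t; simp only [Finset.mem_union, Finset.mem_Ico]; omega
  rw [h1, h2]
  refine h.union h' ?_ ?_
  · rw [Finset.disjoint_left]; intro t; simp only [Finset.mem_Ico]; omega
  · rw [Finset.disjoint_left]; intro t; simp only [Finset.mem_Ico]; omega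

/-- repetition of a block of length `len`. -/
theorem Tl.rep {a c σ : ℤ} {i j len : ℕ} (h : ∀ x, Tl a c σ x (x + len) i j) :
    ∀ (k : ℕ) (x : ℤ), Tl a c σ x (x + (k * len : ℕ)) (k * i) (k * j) := by
  intro k
  induction k with
  | zero =>
    intro x
    refine ⟨∅, ∅, by simp, by simp, by simp, by simp, by simp, ?_, ?_⟩ <;> simp
  | succ k ih =>
    intro x
    have h1 := (ih x).comp (h (x + (k * len : ℕ)))
      (le_add_of_nonneg_right (by positivity)) (le_add_of_nonneg_right (by positivity))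
    have e1 : x + ((k * len : ℕ) : ℤ) + (len : ℤ) = x + (((k + 1) * len : ℕ) : ℤ) := by
      push_cast; ring
    rw [e1] at h1
    have e2 : k * i + i = (k + 1) * i := by ring
    have e3 : k * j + j = (k + 1) * j := by ring
    rw [e2, e3] at h1
    exact h1

/-- fixed interval. -/
theorem Tl.fix (a c x y : ℤ) : Tl a c 0 x y 0 0 := by
  unfold Tl
  refine Mv.fix a c ?_
  intro t; simp

/-- a block which moves one integer by `a`. -/
theorem Tl.one (a c x : ℤ) : Tl a c a x (x + 1) 1 0 := by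
  refine ⟨{x}, ∅, by simp, by simp, by simp, by simp, by simp, ?_, ?_⟩
  · intro u hu v hv _
    simp only [Finset.mem_Ico] at hu hv
    omega
  · intro u hu
    simp only [Finset.mem_Ico] at hu
    have : u = x := by omega
    subst this
    simp [sh]

end Pool.Agent.H96.RC
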