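import Pool.Agent.H96.RC.Stm

set_option autoImplicit false

namespace Pool.Agent.H96.RC

open Finset

/-- the vertex below a vertex -/
def lab_par {h1 h2 h3 : ℕ} : Vtx h1 h2 h3 → Vtx h1 h2 h3
  | .v1 => .v2
  | .v2 => .v2
  | .v3 => .v2
  | .x _ => .v1
  | .y _ => .v2
  | .z _ => .v3

theorem lab_edg {h1 h2 h3 : ℕ} {A : Type} [AddCommGroup A] (f : Vtx h1 h2 h3 → A)
    (u w : Vtx h1 h2 h3) (h : (Cat h1 h2 h3).Adj u w) :
    ∃ t : Vtx h1 h2 h3, t ≠ .v2 ∧ s(u, w) = s(t, lab_par t) ∧ f u + f w = f t + f (lab_par t) := by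
  rcases h with h | h
  · cases h with
    | s12 => exact ⟨.v1, by simp, rfl, rfl⟩
    | s23 => exact ⟨.v3, by simp, Sym2.eq_swap, add_comm _ _⟩
    | ex i => exact ⟨.x i, by simp, Sym2.eq_swap, add_comm _ _⟩
    | ey i => exact ⟨.y i, by simp, Sym2.eq_swap, add_comm _ _⟩
    | ez i => exact ⟨.z i, by simp, Sym2.eq_swap, add_comm _ _⟩
  · cases h with
    | s12 => exact ⟨.v1, by simp, Sym2.eq_swap, add_comm _ _⟩
    | s23 => exact ⟨.v3, by simp, rfl, rfl⟩
    | ex i => exact ⟨.x i, by simp, rfl, rfl⟩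
    | ey i => exact ⟨.y i, by simp, rfl, rfl⟩
    | ez i => exact ⟨.z i, by simp, rfl, rfl⟩

theorem t_lab : S_lab := by
  intro A _ _ _ h1 h2 h3 hcard hlab
  obtain ⟨a, c, ha, hc, hac, X, Z, hX, hZ, hXZ, hXc, hZc, hinj, hmem⟩ := hlab
  have h3c : ({0, a, c} : Finset A).card = 3 := by
    rw [Finset.card_insert_of_notMem, Finset.card_insert_of_notMem, Finset.card_singleton]
    · simpa using hac
    · simp only [Finset.mem_insert, Finset.mem_singleton, not_or]
      exact ⟨fun h => ha h.symm, fun h => hc h.symm⟩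
  have hDc : (univ \ {0, a, c} : Finset A).card = h1 + h2 + h3 := by
    rw [Finset.card_sdiff_of_subset (Finset.subset_univ _), h3c, Finset.card_univ, hcard]
    omega
  have hYc : ((univ \ {0, a, c} : Finset A) \ (X ∪ Z)).card = h2 := by
    rw [Finset.card_sdiff_of_subset (Finset.union_subset hX hZ), hDc,
      Finset.card_union_of_disjoint hXZ, hXc, hZc]
    omega
  set D : Finset A := univ \ {0, a, c} with hD
  set Y : Finset A := D \ (X ∪ Z) with hY
  have hDm : ∀ w : A, w ∈ D ↔ w ≠ 0 ∧ w ≠ a ∧ w ≠ c := by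
    intro w
    rw [hD]
    simp
  have hYm : ∀ w : A, w ∈ Y ↔ w ∈ D ∧ w ∉ X ∧ w ∉ Z := by
    intro w
    rw [hY]
    simp [not_or]
  let eX := X.equivFinOfCardEq hXc
  let eY := Y.equivFinOfCardEq hYc
  let eZ := Z.equivFinOfCardEq hZc
  let f : Vtx h1 h2 h3 → A := fun v => match v with
    | .v1 => a
    | .v2 => 0
    | .v3 => c
    | .x i => (eX.symm i : A)
    | .y i => (eY.symm i : A)
    | .z i => (eZ.symm i : A)
  have fx : ∀ i, f (.x i) = (eX.symm i : A) := fun i => rfl
  have fy : ∀ i, f (.y i) = (eY.symm i : A) := fun i => rfl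
  have fz : ∀ i, f (.z i) = (eZ.symm i : A) := fun i => rfl
  have fxm : ∀ i, f (.x i) ∈ X := fun i => (eX.symm i).2
  have fym : ∀ i, f (.y i) ∈ Y := fun i => (eY.symm i).2
  have fzm : ∀ i, f (.z i) ∈ Z := fun i => (eZ.symm i).2
  have fxD : ∀ i, f (.x i) ∈ D := fun i => hX (fxm i)
  have fyD : ∀ i, f (.y i) ∈ D := fun i => ((hYm _).mp (fym i)).1
  have fzD : ∀ i, f (.z i) ∈ D := fun i => hZ (fzm i)
  have fyX : ∀ i, f (.y i) ∉ X := fun i => ((hYm _).mp (fym i)).2.1
  have fyZ : ∀ i, f (.y i) ∉ Z := fun i => ((hYm _).mp (fym i)).2.2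
  have fzX : ∀ i, f (.z i) ∉ X := fun i h => Finset.disjoint_left.mp hXZ h (fzm i)
  have fxZ : ∀ i, f (.x i) ∉ Z := fun i h => Finset.disjoint_left.mp hXZ (fxm i) h
  have f1 : f .v1 = a := rfl
  have f2 : f .v2 = 0 := rfl
  have f3 : f .v3 = c := rfl
  have ix : ∀ i j, f (.x i) = f (.x j) → i = j := by
    intro i j h
    exact eX.symm.injective (Subtype.ext h)
  have iy : ∀ i j, f (.y i) = f (.y j) → i = j := by
    intro i j h
    exact eY.symm.injective (Subtype.ext h)
  have iz : ∀ i j, f (.z i) = f (.z j) → i = j := by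
    intro i j h
    exact eZ.symm.injective (Subtype.ext h)
  have finj : Function.Injective f := by
    intro u w huw
    cases u with
    | v1 => cases w with
      | v1 => rfl
      | v2 => exact absurd huw ha
      | v3 => exact absurd huw hac
      | x i => exact absurd huw.symm ((hDm _).mp (fxD i)).2.1
      | y i => exact absurd huw.symm ((hDm _).mp (fyD i)).2.1
      | z i => exact absurd huw.symm ((hDm _).mp (fzD i)).2.1
    | v2 => cases w with
      | v1 => exact absurd huw.symm ha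
      | v2 => rfl
      | v3 => exact absurd huw.symm hc
      | x i => exact absurd huw.symm ((hDm _).mp (fxD i)).1
      | y i => exact absurd huw.symm ((hDm _).mp (fyD i)).1
      | z i => exact absurd huw.symm ((hDm _).mp (fzD i)).1
    | v3 => cases w with
      | v1 => exact absurd huw.symm hac
      | v2 => exact absurd huw hc
      | v3 => rfl
      | x i => exact absurd huw.symm ((hDm _).mp (fxD i)).2.2
      | y i => exact absurd huw.symm ((hDm _).mp (fyD i)).2.2
      | z i => exact absurd huw.symm ((hDm _).mp (fzD i)).2.2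
    | x i => cases w with
      | v1 => exact absurd huw ((hDm _).mp (fxD i)).2.1
      | v2 => exact absurd huw ((hDm _).mp (fxD i)).1
      | v3 => exact absurd huw ((hDm _).mp (fxD i)).2.2
      | x j => rw [ix i j huw]
      | y j => exact absurd (huw ▸ fxm i) (fyX j)
      | z j => exact absurd (huw ▸ fxm i) (fzX j)
    | y i => cases w with
      | v1 => exact absurd huw ((hDm _).mp (fyD i)).2.1
      | v2 => exact absurd huw ((hDm _).mp (fyD i)).1
      | v3 => exact absurd huw ((hDm _).mp (fyD i)).2.2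
      | x j => exact absurd (huw.symm ▸ fxm j) (fyX i)
      | y j => rw [iy i j huw]
      | z j => exact absurd (huw.symm ▸ fzm j) (fyZ i)
    | z i => cases w with
      | v1 => exact absurd huw ((hDm _).mp (fzD i)).2.1
      | v2 => exact absurd huw ((hDm _).mp (fzD i)).1
      | v3 => exact absurd huw ((hDm _).mp (fzD i)).2.2
      | x j => exact absurd (huw.symm ▸ fxm j) (fzX i)
      | y j => exact absurd (huw ▸ fzm i) (fyZ j)
      | z j => rw [iz i j huw]
  have fsur : Function.Surjective f := by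
    intro w
    by_cases h0 : w = 0
    · exact ⟨.v2, h0.symm⟩
    by_cases h1' : w = a
    · exact ⟨.v1, h1'.symm⟩
    by_cases h2' : w = c
    · exact ⟨.v3, h2'.symm⟩
    have hwD : w ∈ D := (hDm w).mpr ⟨h0, h1', h2'⟩
    by_cases hwX : w ∈ X
    · refine ⟨.x (eX ⟨w, hwX⟩), ?_⟩
      rw [fx, Equiv.symm_apply_apply]
    by_cases hwZ : w ∈ Z
    · refine ⟨.z (eZ ⟨w, hwZ⟩), ?_⟩
      rw [fz, Equiv.symm_apply_apply]
    have hwY : w ∈ Y := (hYm w).mpr ⟨hwD, hwX, hwZ⟩
    refine ⟨.y (eY ⟨w, hwY⟩), ?_⟩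
    rw [fy, Equiv.symm_apply_apply]
  -- the labels of the edges at the hairs
  have gx : ∀ i, f (.x i) + f (lab_par (.x i : Vtx h1 h2 h3)) = sh a c X Z (f (.x i)) := by
    intro i
    unfold sh
    rw [if_pos (fxm i)]
    rfl
  have gy : ∀ i, f (.y i) + f (lab_par (.y i : Vtx h1 h2 h3)) = sh a c X Z (f (.y i)) := by
    intro i
    unfold sh
    rw [if_neg (fyX i), if_neg (fyZ i)]
    exact add_zero _
  have gz : ∀ i, f (.z i) + f (lab_par (.z i : Vtx h1 h2 h3)) = sh a c X Z (f (.z i)) := by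
    intro i
    unfold sh
    rw [if_neg (fzX i), if_pos (fzm i)]
    rfl
  have hair : ∀ t : Vtx h1 h2 h3, t ≠ .v2 → t ≠ .v1 → t ≠ .v3 →
      f t ∈ D ∧ f t + f (lab_par t) = sh a c X Z (f t) := by
    intro t h2' h1' h3'
    cases t with
    | v1 => exact absurd rfl h1'
    | v2 => exact absurd rfl h2'
    | v3 => exact absurd rfl h3'
    | x i => exact ⟨fxD i, gx i⟩
    | y i => exact ⟨fyD i, gy i⟩
    | z i => exact ⟨fzD i, gz i⟩
  have hne : ∀ w ∈ D, sh a c X Z w ≠ a ∧ sh a c X Z w ≠ c := by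
    intro w hw
    have := hmem w hw
    simpa using this
  have g1 : f .v1 + f (lab_par (.v1 : Vtx h1 h2 h3)) = a := add_zero a
  have g3 : f .v3 + f (lab_par (.v3 : Vtx h1 h2 h3)) = c := add_zero c
  have key : ∀ t t' : Vtx h1 h2 h3, t ≠ .v2 → t' ≠ .v2 →
      f t + f (lab_par t) = f t' + f (lab_par t') → t = t' := by
    intro t t' ht ht' h
    by_cases t1 : t = .v1
    · subst t1
      rw [g1] at h
      by_cases t1' : t' = .v1
      · exact t1'.symm
      by_cases t3' : t' = .v3
      · subst t3'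
        rw [g3] at h
        exact absurd h hac
      · obtain ⟨q1, q2⟩ := hair t' ht' t1' t3'
        rw [q2] at h
        exact absurd h.symm (hne _ q1).1
    by_cases t3 : t = .v3
    · subst t3
      rw [g3] at h
      by_cases t1' : t' = .v1
      · subst t1'
        rw [g1] at h
        exact absurd h.symm hac
      by_cases t3' : t' = .v3
      · exact t3'.symm
      · obtain ⟨q1, q2⟩ := hair t' ht' t1' t3'
        rw [q2] at h
        exact absurd h.symm (hne _ q1).2
    · obtain ⟨p1, p2⟩ := hair t ht t1 t3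
      rw [p2] at h
      by_cases t1' : t' = .v1
      · subst t1'
        rw [g1] at h
        exact absurd h (hne _ p1).1
      by_cases t3' : t' = .v3
      · subst t3'
        rw [g3] at h
        exact absurd h (hne _ p1).2
      · obtain ⟨q1, q2⟩ := hair t' ht' t1' t3'
        rw [q2] at h
        exact finj (hinj _ p1 _ q1 h)
  refine ⟨f, ⟨finj, fsur⟩, ?_⟩
  intro u w u' w' huw huw' h
  obtain ⟨t, ht, e1, e2⟩ := lab_edg f u w huw
  obtain ⟨t', ht', e1', e2'⟩ := lab_edg f u' w' huw'
  rw [e2, e2'] at h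
  have htt := key t t' ht ht' h
  rw [e1, e1', htt]

end Pool.Agent.H96.RC
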