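import Pool.Agent.H96.RC.Stm

set_option autoImplicit false

namespace Pool.Agent.H96.RC

open Finset

theorem t_one : S_one := by
  intro m α β γ hm
  have hm' : (m : ℤ) = α + β + γ + 3 := by rw [← hm]; push_cast; ring
  refine ⟨-(α : ℤ), -(α : ℤ), (γ : ℤ) + 1, (γ : ℤ) + β + 2, (γ : ℤ) + 1, (γ : ℤ) + β + 2,
    Or.inl rfl, Or.inr (by omega), Or.inl rfl, Or.inr (by omega), by omega, by omega, by omega,
    by omega, by omega, by omega, by omega, by omega, by omega, by omega, by omega, by omega,
    by omega, ?_⟩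
  refine ⟨Ico (-(α : ℤ)) 0, Ico 1 ((γ : ℤ) + 1), ?_, ?_, ?_, ?_, ?_, ?_, ?_⟩
  · intro t ht
    simp only [Finset.mem_sdiff, Finset.mem_Ico, Finset.mem_insert, Finset.mem_singleton] at ht ⊢
    omega
  · intro t ht
    simp only [Finset.mem_sdiff, Finset.mem_Ico, Finset.mem_insert, Finset.mem_singleton] at ht ⊢
    omega
  · rw [Finset.disjoint_left]
    intro t ht ht'
    rw [Finset.mem_Ico] at ht ht'
    omega
  · rw [Int.card_Ico]; omega
  · rw [Int.card_Ico]; omega
  · intro x hx y hy hxy
    simp only [Finset.mem_sdiff, Finset.mem_Ico, Finset.mem_insert, Finset.mem_singleton] at hx hy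
    simp only [sh, Finset.mem_Ico] at hxy
    split_ifs at hxy <;> omega
  · intro x hx
    simp only [Finset.mem_sdiff, Finset.mem_Ico, Finset.mem_insert, Finset.mem_singleton] at hx ⊢
    simp only [sh, Finset.mem_Ico]
    split_ifs <;> omega

end Pool.Agent.H96.RC
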