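import Pool.Agent.H96.RC.Stm

set_option autoImplicit false

/-!
Proof of `S_path0` (helper134).
-/

namespace Pool.Agent.H96.RC

open Finset

/-- block of length 3 shifted by `-1`. -/
theorem path0_b3 (x : ℤ) : Tl 1 (-2) (-1) x (x + (3 : ℕ)) 1 2 := by
  refine ⟨{x}, {x + 1, x + 2}, ?_, ?_, ?_, by simp, ?_, ?_, ?_⟩
  · intro u hu
    simp only [Finset.mem_singleton, Finset.mem_Ico] at hu ⊢
    push_cast; omega
  · intro u hu
    simp only [Finset.mem_insert, Finset.mem_singleton, Finset.mem_Ico] at hu ⊢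
    push_cast; omega
  · rw [Finset.disjoint_left]
    intro u hu hv
    simp only [Finset.mem_insert, Finset.mem_singleton] at hu hv
    omega
  · rw [Finset.card_pair]; omega
  · intro u hu v hv h
    simp only [Finset.mem_Ico] at hu hv
    push_cast at hu hv
    unfold sh at h
    simp only [Finset.mem_insert, Finset.mem_singleton] at h
    split_ifs at h <;> omega
  · intro u hu
    simp only [Finset.mem_Ico] at hu ⊢
    push_cast at hu ⊢
    unfold sh
    simp only [Finset.mem_insert, Finset.mem_singleton]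
    split_ifs <;> omega

/-- block of length 2 shifted by `-1`. -/
theorem path0_b2 (x : ℤ) : Tl 1 (-2) (-1) x (x + (2 : ℕ)) 0 1 := by
  refine ⟨∅, {x + 1}, by simp, ?_, by simp, by simp, by simp, ?_, ?_⟩
  · intro u hu
    simp only [Finset.mem_singleton, Finset.mem_Ico] at hu ⊢
    push_cast; omega
  · intro u hu v hv h
    simp only [Finset.mem_Ico] at hu hv
    push_cast at hu hv
    unfold sh at h
    simp only [Finset.notMem_empty, Finset.mem_singleton, if_false] at h
    split_ifs at h <;> omega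
  · intro u hu
    simp only [Finset.mem_Ico] at hu ⊢
    push_cast at hu ⊢
    unfold sh
    simp only [Finset.notMem_empty, Finset.mem_singleton, if_false]
    split_ifs <;> omega

/-- triple block. -/
theorem path0_t3 (x : ℤ) : Tl 1 (-2) 0 x (x + (3 : ℕ)) 2 1 := by
  refine ⟨{x, x + 1}, {x + 2}, ?_, ?_, ?_, ?_, by simp, ?_, ?_⟩
  · intro u hu
    simp only [Finset.mem_insert, Finset.mem_singleton, Finset.mem_Ico] at hu ⊢
    push_cast; omega
  · intro u hu
    simp only [Finset.mem_singleton, Finset.mem_Ico] at hu ⊢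
    push_cast; omega
  · rw [Finset.disjoint_left]
    intro u hu hv
    simp only [Finset.mem_insert, Finset.mem_singleton] at hu hv
    omega
  · rw [Finset.card_pair]; omega
  · intro u hu v hv h
    simp only [Finset.mem_Ico] at hu hv
    push_cast at hu hv
    unfold sh at h
    simp only [Finset.mem_insert, Finset.mem_singleton] at h
    split_ifs at h <;> omega
  · intro u hu
    simp only [Finset.mem_Ico] at hu ⊢
    push_cast at hu ⊢
    unfold sh
    simp only [Finset.mem_insert, Finset.mem_singleton]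
    split_ifs <;> omega

/-- the lower part of the path: `p` blocks of length 3 and `q` blocks of length 2. -/
theorem path0_low (p q : ℕ) (x y : ℤ) (hy : y = x + 3 * p + 2 * q) :
    Tl 1 (-2) (-1) x y p (2 * p + q) := by
  have h1 := Tl.rep path0_b3 p x
  have h2 := Tl.rep path0_b2 q (x + (p * 3 : ℕ))
  have h3 := h1.comp h2 (by push_cast; omega) (by push_cast; omega)
  have e1 : x + ((p * 3 : ℕ) : ℤ) + ((q * 2 : ℕ) : ℤ) = y := by
    rw [hy]; push_cast; ring
  rw [e1] at h3
  have e2 : p * 1 + q * 0 = p := by ring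
  have e3 : p * 2 + q * 1 = 2 * p + q := by ring
  rw [e2, e3] at h3
  exact h3

/-- the triple blocks. -/
theorem path0_tri (t : ℕ) (x y : ℤ) (hy : y = x + 3 * t) :
    Tl 1 (-2) 0 x y (2 * t) t := by
  have h1 := Tl.rep path0_t3 t x
  have e1 : x + ((t * 3 : ℕ) : ℤ) = y := by
    rw [hy]; push_cast; ring
  rw [e1] at h1
  have e2 : t * 2 = 2 * t := by ring
  have e3 : t * 1 = t := by ring
  rw [e2, e3] at h1
  exact h1

theorem t_path0 : S_path0 := by
  intro m u d t hud hm
  have hm' : (u : ℤ) + 2 * d + 3 * t + 3 ≤ m := by exact_mod_cast hm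
  have hud' : (u : ℤ) + 1 ≤ d := by exact_mod_cast hud
  refine ⟨0, 0, 1, (m : ℤ) - 2, 1, (m : ℤ) - 2, Or.inl rfl, Or.inr (by ring), Or.inl rfl,
    Or.inr (by ring), by omega, by omega, by omega, by omega, by omega, by omega, by omega,
    by omega, by omega, by omega, by omega, by omega, by omega, ?_⟩
  -- pieces
  have p1 : Mv (1 : ℤ) (-2) (Ico 2 (2 + 1)) (Ico (2 + -2) (2 + 1 + -2)) 0 1 :=
    Mv.symm (Tl.one (-2) 1 2)
  have p2 : Mv (1 : ℤ) (-2) (Ico 3 ((u : ℤ) + 2 * d + 1))
      (Ico (3 + -1) ((u : ℤ) + 2 * d + 1 + -1)) u (2 * u + (d - 1 - u)) :=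
    path0_low u (d - 1 - u) 3 ((u : ℤ) + 2 * d + 1) (by
      have : ((d - 1 - u : ℕ) : ℤ) = (d : ℤ) - 1 - u := by omega
      rw [this]; ring)
  have p3 : Mv (1 : ℤ) (-2) (Ico ((u : ℤ) + 2 * d + 1) ((u : ℤ) + 2 * d + 1 + 3 * t))
      (Ico ((u : ℤ) + 2 * d + 1 + 0) ((u : ℤ) + 2 * d + 1 + 3 * t + 0)) (2 * t) t :=
    path0_tri t _ _ rfl
  have p4 : Mv (1 : ℤ) (-2) (Ico ((u : ℤ) + 2 * d + 1 + 3 * t) (m : ℤ) \ {(m : ℤ) - 2})
      (Ico ((u : ℤ) + 2 * d + 1 + 3 * t) (m : ℤ) \ {(m : ℤ) - 2}) 0 0 :=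
    Mv.fix _ _ (Finset.Subset.refl _)
  have q := ((p1.union p2 ?_ ?_).union p3 ?_ ?_).union p4 ?_ ?_
  · have e1 : 0 + u + 2 * t + 0 = u + 2 * t := by ring
    have e2 : 1 + (2 * u + (d - 1 - u)) + t + 0 = u + d + t := by omega
    rw [e1, e2] at q
    have eD : Ico (0 : ℤ) (0 + (m : ℤ)) \ {0, 1, (m : ℤ) - 2} =
        Ico (2 : ℤ) (2 + 1) ∪ Ico 3 ((u : ℤ) + 2 * d + 1) ∪
          Ico ((u : ℤ) + 2 * d + 1) ((u : ℤ) + 2 * d + 1 + 3 * t) ∪
          Ico ((u : ℤ) + 2 * d + 1 + 3 * t) (m : ℤ) \ {(m : ℤ) - 2} := by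
      ext z
      simp only [Finset.mem_sdiff, Finset.mem_union, Finset.mem_Ico, Finset.mem_insert,
        Finset.mem_singleton]
      omega
    rw [eD]
    refine q.mono ?_
    intro z
    simp only [Finset.mem_sdiff, Finset.mem_union, Finset.mem_Ico, Finset.mem_insert,
        Finset.mem_singleton]
    omega
  all_goals
    rw [Finset.disjoint_left]
    intro z
    simp only [Finset.mem_sdiff, Finset.mem_union, Finset.mem_Ico, Finset.mem_singleton]
    omega

end Pool.Agent.H96.RC
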