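import Pool.Agent.H96.RC.Stm

set_option autoImplicit false

/-!
Proof of `S_path1` (helper134).
-/

namespace Pool.Agent.H96.RC

open Finset

/-- block of length 3 shifted by `-1`. -/
theorem path1_b3 (x : ℤ) : Tl 1 (-2) (-1) x (x + (3 : ℕ)) 1 2 := by
  refine ⟨{x}, {x + 1, x + 2}, ?_, ?_, ?_, by simp, ?_, ?_, ?_⟩
  · intro u hu
    simp only [Finset.mem_singleton, Finset.mem_Ico] at hu ⊢
    push_cast; omega
  · intro u hu
    simp only [Finset.mem_insert, Finset.mem_singleton, Finset.mem_Ico] at hu ⊢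
    push_cast; omega
  · rw [Finset.disjoint_left]
    intro u hu hv
    simp only [Finset.mem_insert, Finset.mem_singleton] at hu hv
    omega
  · rw [Finset.card_pair]; omega
  · intro u hu v hv h
    simp only [Finset.mem_Ico] at hu hv
    push_cast at hu hv
    unfold sh at h
    simp only [Finset.mem_insert, Finset.mem_singleton] at h
    split_ifs at h <;> omega
  · intro u hu
    simp only [Finset.mem_Ico] at hu ⊢
    push_cast at hu ⊢
    unfold sh
    simp only [Finset.mem_insert, Finset.mem_singleton]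
    split_ifs <;> omega

/-- block of length 2 shifted by `-1`. -/
theorem path1_b2 (x : ℤ) : Tl 1 (-2) (-1) x (x + (2 : ℕ)) 0 1 := by
  refine ⟨∅, {x + 1}, by simp, ?_, by simp, by simp, by simp, ?_, ?_⟩
  · intro u hu
    simp only [Finset.mem_singleton, Finset.mem_Ico] at hu ⊢
    push_cast; omega
  · intro u hu v hv h
    simp only [Finset.mem_Ico] at hu hv
    push_cast at hu hv
    unfold sh at h
    simp only [Finset.notMem_empty, Finset.mem_singleton, if_false] at h
    split_ifs at h <;> omega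
  · intro u hu
    simp only [Finset.mem_Ico] at hu ⊢
    push_cast at hu ⊢
    unfold sh
    simp only [Finset.notMem_empty, Finset.mem_singleton, if_false]
    split_ifs <;> omega

/-- triple block. -/
theorem path1_t3 (x : ℤ) : Tl 1 (-2) 0 x (x + (3 : ℕ)) 2 1 := by
  refine ⟨{x, x + 1}, {x + 2}, ?_, ?_, ?_, ?_, by simp, ?_, ?_⟩
  · intro u hu
    simp only [Finset.mem_insert, Finset.mem_singleton, Finset.mem_Ico] at hu ⊢
    push_cast; omega
  · intro u hu
    simp only [Finset.mem_singleton, Finset.mem_Ico] at hu ⊢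
    push_cast; omega
  · rw [Finset.disjoint_left]
    intro u hu hv
    simp only [Finset.mem_insert, Finset.mem_singleton] at hu hv
    omega
  · rw [Finset.card_pair]; omega
  · intro u hu v hv h
    simp only [Finset.mem_Ico] at hu hv
    push_cast at hu hv
    unfold sh at h
    simp only [Finset.mem_insert, Finset.mem_singleton] at h
    split_ifs at h <;> omega
  · intro u hu
    simp only [Finset.mem_Ico] at hu ⊢
    push_cast at hu ⊢
    unfold sh
    simp only [Finset.mem_insert, Finset.mem_singleton]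
    split_ifs <;> omega

/-- the lower part of the path: `p` blocks of length 3 and `q` blocks of length 2. -/
theorem path1_low (p q : ℕ) (x y : ℤ) (hy : y = x + 3 * p + 2 * q) :
    Tl 1 (-2) (-1) x y p (2 * p + q) := by
  have h1 := Tl.rep path1_b3 p x
  have h2 := Tl.rep path1_b2 q (x + (p * 3 : ℕ))
  have h3 := h1.comp h2 (by push_cast; omega) (by push_cast; omega)
  have e1 : x + ((p * 3 : ℕ) : ℤ) + ((q * 2 : ℕ) : ℤ) = y := by
    rw [hy]; push_cast; ring
  rw [e1] at h3
  have e2 : p * 1 + q * 0 = p := by ring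
  have e3 : p * 2 + q * 1 = 2 * p + q := by ring
  rw [e2, e3] at h3
  exact h3

/-- the triple blocks. -/
theorem path1_tri (t : ℕ) (x y : ℤ) (hy : y = x + 3 * t) :
    Tl 1 (-2) 0 x y (2 * t) t := by
  have h1 := Tl.rep path1_t3 t x
  have e1 : x + ((t * 3 : ℕ) : ℤ) = y := by
    rw [hy]; push_cast; ring
  rw [e1] at h1
  have e2 : t * 2 = 2 * t := by ring
  have e3 : t * 1 = t := by ring
  rw [e2, e3] at h1
  exact h1

/-- the top of the path. -/
theorem path1_top (e : ℤ) : Mv (1 : ℤ) (-2) (Ico e (e + 2)) {e - 1, e + 1} 1 1 := by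
  refine ⟨{e}, {e + 1}, ?_, ?_, ?_, by simp, by simp, ?_, ?_⟩
  · intro u hu
    simp only [Finset.mem_singleton, Finset.mem_Ico] at hu ⊢
    omega
  · intro u hu
    simp only [Finset.mem_singleton, Finset.mem_Ico] at hu ⊢
    omega
  · rw [Finset.disjoint_left]
    intro u hu hv
    simp only [Finset.mem_singleton] at hu hv
    omega
  · intro u hu v hv h
    simp only [Finset.mem_Ico] at hu hv
    unfold sh at h
    simp only [Finset.mem_singleton] at h
    split_ifs at h <;> omega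
  · intro u hu
    simp only [Finset.mem_Ico, Finset.mem_insert, Finset.mem_singleton] at hu ⊢
    unfold sh
    simp only [Finset.mem_singleton]
    split_ifs <;> omega

theorem t_path1 : S_path1 := by
  intro m u d t hu1 hud hm
  have hm' : (u : ℤ) + 2 * d + 3 * t + 4 ≤ m := by exact_mod_cast hm
  have hud' : (u : ℤ) ≤ d := by exact_mod_cast hud
  have hu1' : (1 : ℤ) ≤ u := by exact_mod_cast hu1
  refine ⟨0, 0, 1, (m : ℤ) - 2, 1, (m : ℤ) - 2, Or.inl rfl, Or.inr (by ring), Or.inl rfl,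
    Or.inr (by ring), by omega, by omega, by omega, by omega, by omega, by omega, by omega,
    by omega, by omega, by omega, by omega, by omega, by omega, ?_⟩
  -- pieces
  have p1 : Mv (1 : ℤ) (-2) (Ico 2 (2 + 1)) (Ico (2 + -2) (2 + 1 + -2)) 0 1 :=
    Mv.symm (Tl.one (-2) 1 2)
  have p2 : Mv (1 : ℤ) (-2) (Ico 3 ((u : ℤ) + 2 * d))
      (Ico (3 + -1) ((u : ℤ) + 2 * d + -1)) (u - 1) (2 * (u - 1) + (d - u)) :=
    path1_low (u - 1) (d - u) 3 ((u : ℤ) + 2 * d) (by
      have h1 : ((d - u : ℕ) : ℤ) = (d : ℤ) - u := by omega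
      have h2 : ((u - 1 : ℕ) : ℤ) = (u : ℤ) - 1 := by omega
      rw [h1, h2]; ring)
  have p2' : Mv (1 : ℤ) (-2) (Ico ((u : ℤ) + 2 * d) ((u : ℤ) + 2 * d + 2))
      {(u : ℤ) + 2 * d - 1, (u : ℤ) + 2 * d + 1} 1 1 := path1_top _
  have p3 : Mv (1 : ℤ) (-2) (Ico ((u : ℤ) + 2 * d + 2) ((u : ℤ) + 2 * d + 2 + 3 * t))
      (Ico ((u : ℤ) + 2 * d + 2 + 0) ((u : ℤ) + 2 * d + 2 + 3 * t + 0)) (2 * t) t :=
    path1_tri t _ _ rfl
  have p4 : Mv (1 : ℤ) (-2) (Ico ((u : ℤ) + 2 * d + 2 + 3 * t) (m : ℤ) \ {(m : ℤ) - 2})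
      (Ico ((u : ℤ) + 2 * d + 2 + 3 * t) (m : ℤ) \ {(m : ℤ) - 2}) 0 0 :=
    Mv.fix _ _ (Finset.Subset.refl _)
  have q := (((p1.union p2 ?_ ?_).union p2' ?_ ?_).union p3 ?_ ?_).union p4 ?_ ?_
  · have e1 : 0 + (u - 1) + 1 + 2 * t + 0 = u + 2 * t := by omega
    have e2 : 1 + (2 * (u - 1) + (d - u)) + 1 + t + 0 = u + d + t := by omega
    rw [e1, e2] at q
    have eD : Ico (0 : ℤ) (0 + (m : ℤ)) \ {0, 1, (m : ℤ) - 2} =
        Ico (2 : ℤ) (2 + 1) ∪ Ico 3 ((u : ℤ) + 2 * d) ∪
          Ico ((u : ℤ) + 2 * d) ((u : ℤ) + 2 * d + 2) ∪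
          Ico ((u : ℤ) + 2 * d + 2) ((u : ℤ) + 2 * d + 2 + 3 * t) ∪
          Ico ((u : ℤ) + 2 * d + 2 + 3 * t) (m : ℤ) \ {(m : ℤ) - 2} := by
      ext z
      simp only [Finset.mem_sdiff, Finset.mem_union, Finset.mem_Ico, Finset.mem_insert,
        Finset.mem_singleton]
      omega
    rw [eD]
    refine q.mono ?_
    intro z
    simp only [Finset.mem_sdiff, Finset.mem_union, Finset.mem_Ico, Finset.mem_insert,
        Finset.mem_singleton]
    omega
  all_goals
    rw [Finset.disjoint_left]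
    intro z
    simp only [Finset.mem_sdiff, Finset.mem_union, Finset.mem_Ico, Finset.mem_insert,
      Finset.mem_singleton]
    omega

end Pool.Agent.H96.RC
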