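import Pool.Agent.H96.RC.Stm

set_option autoImplicit false

/-!
STAR: the case without hairs at the first spine vertex.
-/

namespace Pool.Agent.H96.RC

open Finset

theorem star_card {A : Type} [AddCommGroup A] [Fintype A] [DecidableEq A] (H : AddSubgroup A)
    (S : Finset (A ⧸ H)) [DecidablePred fun x : A => (QuotientAddGroup.mk x : A ⧸ H) ∈ S] :
    (univ.filter fun x : A => (QuotientAddGroup.mk x : A ⧸ H) ∈ S).card =
      Nat.card H * S.card := by
  classical
  have e := QuotientAddGroup.preimageMkEquivAddSubgroupProdSet H (S : Set (A ⧸ H))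
  have h1 := Nat.card_congr e
  rw [Nat.card_prod] at h1
  have h2 : Nat.card (S : Set (A ⧸ H)) = S.card := by
    rw [Nat.card_coe_set_eq, Set.ncard_coe_finset]
  have h3 : Nat.card ((QuotientAddGroup.mk : A → A ⧸ H) ⁻¹' (S : Set (A ⧸ H))) =
      (univ.filter fun x : A => (QuotientAddGroup.mk x : A ⧸ H) ∈ S).card := by
    rw [Nat.card_coe_set_eq, ← Set.ncard_coe_finset]
    congr 1
    ext x
    simp
  rw [← h3, h1, h2]

theorem t_star : S_star := by
  intro A _ _ _ m k z hm hexp hcard hz
  classical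
  obtain ⟨g, hg⟩ := AddMonoid.exists_addOrderOf_eq_exponent (G := A)
    (AddMonoid.ExponentExists.of_finite)
  rw [hexp] at hg
  have hg0 : g ≠ 0 := by
    intro h0
    rw [h0, addOrderOf_zero] at hg
    omega
  set H := AddSubgroup.zmultiples g with hH
  have hHc : Nat.card H = m := by rw [hH, Nat.card_zmultiples, hg]
  have hQ : Nat.card (A ⧸ H) = k := by
    have h1 := AddSubgroup.card_eq_card_quotient_mul_card_addSubgroup H
    rw [hHc, Nat.card_eq_fintype_card, hcard] at h1
    exact (Nat.eq_of_mul_eq_mul_right (by omega) h1).symm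
  have : Fintype (A ⧸ H) := Fintype.ofFinite _
  have hQ' : Fintype.card (A ⧸ H) = k := by rw [← hQ, Nat.card_eq_fintype_card]
  have hgH : (QuotientAddGroup.mk g : A ⧸ H) = 0 :=
    (QuotientAddGroup.eq_zero_iff g).2 (AddSubgroup.mem_zmultiples g)
  -- the set of cosets
  obtain ⟨S, hS0, hSc⟩ : ∃ S : Finset (A ⧸ H), (0 : A ⧸ H) ∈ S ∧ S.card = z + 1 := by
    obtain ⟨S, h1, -, h2⟩ := Finset.exists_subsuperset_card_eq
      (Finset.subset_univ ({0} : Finset (A ⧸ H))) (n := z + 1) (by simp) (by
        rw [Finset.card_univ, hQ']; omega)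
    exact ⟨S, h1 (by simp), h2⟩
  obtain ⟨q, hq⟩ : ∃ q : A ⧸ H, q ∉ S := by
    by_contra hcon
    push Not at hcon
    have h1 : S = univ := Finset.eq_univ_iff_forall.2 hcon
    rw [h1, Finset.card_univ, hQ'] at hSc
    omega
  obtain ⟨a, rfl⟩ := QuotientAddGroup.mk_surjective q
  have ha0 : a ≠ 0 := by
    rintro rfl
    exact hq hS0
  have hag : a ≠ g := by
    rintro rfl
    rw [hgH] at hq
    exact hq hS0
  let W : Finset A := univ.filter fun x : A => (QuotientAddGroup.mk x : A ⧸ H) ∈ S
  have hW : ∀ x, x ∈ W ↔ (QuotientAddGroup.mk x : A ⧸ H) ∈ S := by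
    intro x
    simp [W]
  have hWg : ∀ x, x + g ∈ W ↔ x ∈ W := by
    intro x
    rw [hW, hW]
    have h1 : (QuotientAddGroup.mk (x + g) : A ⧸ H) = QuotientAddGroup.mk x := by
      rw [QuotientAddGroup.mk_add, hgH, add_zero]
    rw [h1]
  have haW : a ∉ W := by rw [hW]; exact hq
  have h0W : (0 : A) ∈ W := by rw [hW]; exact hS0
  have hgW : g ∈ W := by rw [hW, hgH]; exact hS0
  have hWc : W.card = m * (z + 1) := by
    have h1 := star_card H S
    rw [hHc, hSc] at h1
    exact h1
  refine ⟨a, g, ha0, hg0, hag, ∅, W \ {0, g}, by simp, ?_, by simp, by simp, ?_, ?_, ?_⟩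
  · intro x hx
    rw [Finset.mem_sdiff, Finset.mem_insert, Finset.mem_singleton, not_or] at hx
    rw [Finset.mem_sdiff, Finset.mem_insert, Finset.mem_insert, Finset.mem_singleton, not_or,
      not_or]
    refine ⟨Finset.mem_univ _, hx.2.1, ?_, hx.2.2⟩
    rintro rfl
    exact haW hx.1
  · rw [Finset.card_sdiff_of_subset, hWc, Finset.card_pair (Ne.symm hg0)]
    · have : m * (z + 1) = m * z + m := by ring
      omega
    · intro x hx
      rw [Finset.mem_insert, Finset.mem_singleton] at hx
      rcases hx with rfl | rfl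
      · exact h0W
      · exact hgW
  · intro x hx y hy hxy
    simp only [Finset.mem_sdiff, Finset.mem_univ, true_and, Finset.mem_insert,
      Finset.mem_singleton, not_or] at hx hy
    simp only [sh, Finset.notMem_empty, if_false, Finset.mem_sdiff, Finset.mem_insert,
      Finset.mem_singleton, not_or] at hxy
    by_cases h1 : x ∈ W <;> by_cases h2 : y ∈ W
    · rw [if_pos ⟨h1, hx.1, hx.2.2⟩, if_pos ⟨h2, hy.1, hy.2.2⟩] at hxy
      exact add_right_cancel hxy
    · rw [if_pos ⟨h1, hx.1, hx.2.2⟩, if_neg (fun h => h2 h.1)] at hxy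
      exact absurd (hxy ▸ (hWg x).2 h1) h2
    · rw [if_neg (fun h => h1 h.1), if_pos ⟨h2, hy.1, hy.2.2⟩] at hxy
      exact absurd (hxy.symm ▸ (hWg y).2 h2) h1
    · rw [if_neg (fun h => h1 h.1), if_neg (fun h => h2 h.1)] at hxy
      exact hxy
  · intro x hx
    simp only [Finset.mem_sdiff, Finset.mem_univ, true_and, Finset.mem_insert,
      Finset.mem_singleton, not_or] at hx ⊢
    simp only [sh, Finset.notMem_empty, if_false, Finset.mem_sdiff, Finset.mem_insert,
      Finset.mem_singleton, not_or]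
    by_cases h1 : x ∈ W
    · rw [if_pos ⟨h1, hx.1, hx.2.2⟩]
      refine ⟨?_, ?_⟩
      · intro h2
        exact haW (h2 ▸ (hWg x).2 h1)
      · intro h2
        exact hx.1 (add_eq_right.1 h2)
    · rw [if_neg (fun h => h1 h.1)]
      exact ⟨hx.2.1, hx.2.2⟩

end Pool.Agent.H96.RC
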