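import Pool.Agent.H96.RC.Arith
import Pool.Agent.H96.RC.Lab
import Pool.Agent.H96.RC.Asm
import Pool.Agent.H96.RC.Star
import Pool.Agent.H96.RC.One
import Pool.Agent.H96.RC.Path0
import Pool.Agent.H96.RC.Path1

set_option autoImplicit false

namespace Pool.Agent.H96.RC

open Finset

theorem Gd.cast {m k k' i i' j j' : ℕ} (h : Gd m k i j) (hk : k = k') (hi : i = i')
    (hj : j = j') : Gd m k' i' j' := by
  subst hk; subst hi; subst hj; exact h

theorem Lab.symm {A : Type} [AddCommGroup A] [Fintype A] [DecidableEq A] {i j : ℕ}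
    (h : Lab A i j) : Lab A j i := by
  obtain ⟨a, c, h1, h2, h3, h4⟩ := h
  refine ⟨c, a, h2, h1, h3.symm, ?_⟩
  have e1 : ({0, c, a} : Finset A) = {0, a, c} := by
    ext t; simp only [Finset.mem_insert, Finset.mem_singleton]; tauto
  have e2 : ({c, a} : Finset A) = {a, c} := by
    ext t; simp only [Finset.mem_insert, Finset.mem_singleton]; tauto
  rw [e1, e2]
  exact h4.symm

theorem num_aux {m x y z r α β γ : ℕ} (hm : 5 ≤ m) (hα : α < m) (hβ : β < m) (hγ : γ < m)
    (hr : α + β + γ + 3 = r * m)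
    (x1 : ¬ (β + 2 = m ∧ ((α = 0 ∧ γ + 1 = m) ∨ (α + 1 = m ∧ γ = 0))))
    (x2 : ¬ (β = 0 ∧ y = 0 ∧ ((α + 1 = m ∧ γ + 2 = m) ∨ (α + 2 = m ∧ γ + 1 = m))))
    (x3 : ¬ (β = 1 ∧ y = 0 ∧ ((α + 1 = m ∧ γ + 3 = m) ∨ (α + 3 = m ∧ γ + 1 = m)))) :
    Gd m (r + x + z + y) (α + m * x) (γ + m * z) ∨
      (α = 0 ∧ x = 0 ∧ γ + 2 = m ∧ r = 2) ∨ (γ = 0 ∧ z = 0 ∧ α + 2 = m ∧ r = 2) := by
  have hr1 : 1 ≤ r := by
    rcases Nat.eq_zero_or_pos r with h | h
    · subst h; omega
    · exact h
  have hr3 : r ≤ 3 := by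
    by_contra hc
    have : 4 * m ≤ r * m := Nat.mul_le_mul_right m (by omega)
    omega
  rcases (by omega : r = 1 ∨ r = 2 ∨ r = 3) with h | h | h
  · subst h
    left
    exact (Gd.mk1 (t_one m α β γ (by omega))).full x z y
  · subst h
    by_cases c2 : β = 0 ∧ ((α + 1 = m ∧ γ + 2 = m) ∨ (α + 2 = m ∧ γ + 1 = m))
    · left
      obtain ⟨y', hy'⟩ : ∃ y', y = y' + 1 := ⟨y - 1, by omega⟩
      obtain ⟨hb, h | h⟩ := c2
      · exact ((three (m := m) (r := m - 4) (J := α) (i := γ) (by omega) (by omega)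
          (by omega)).symm.full x z y').cast (by omega) rfl rfl
      · exact ((three (m := m) (r := m - 4) (J := γ) (i := α) (by omega) (by omega)
          (by omega)).full x z y').cast (by omega) rfl rfl
    by_cases c3 : β = 1 ∧ ((α + 1 = m ∧ γ + 3 = m) ∨ (α + 3 = m ∧ γ + 1 = m))
    · left
      obtain ⟨y', hy'⟩ : ∃ y', y = y' + 1 := ⟨y - 1, by omega⟩
      obtain ⟨hb, h | h⟩ := c3
      · exact ((three (m := m) (r := m - 5) (J := α) (i := γ) (by omega) (by omega)
          (by omega)).symm.full x z y').cast (by omega) rfl rfl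
      · exact ((three (m := m) (r := m - 5) (J := γ) (i := α) (by omega) (by omega)
          (by omega)).full x z y').cast (by omega) rfl rfl
    by_cases c4 : m % 2 = 1 ∧ β + 1 = m ∧ ((α = 0 ∧ γ + 2 = m) ∨ (α + 2 = m ∧ γ = 0))
    · obtain ⟨hodd, hb, h | h⟩ := c4
      · rcases Nat.eq_zero_or_pos x with hx | hx
        · right; left; exact ⟨h.1, hx, h.2, rfl⟩
        · left
          obtain ⟨x', hx'⟩ : ∃ x', x = x' + 1 := ⟨x - 1, by omega⟩
          have := (three (m := m) (r := m - 4) (J := γ) (i := m) (by omega) (by omega)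
            (by omega)).full x' z y
          refine this.cast (by omega) ?_ rfl
          subst hx'
          rw [h.1]; ring
      · rcases Nat.eq_zero_or_pos z with hz | hz
        · right; right; exact ⟨h.2, hz, h.1, rfl⟩
        · left
          obtain ⟨z', hz'⟩ : ∃ z', z = z' + 1 := ⟨z - 1, by omega⟩
          have := (three (m := m) (r := m - 4) (J := α) (i := m) (by omega) (by omega)
            (by omega)).symm.full x z' y
          refine this.cast (by omega) rfl ?_
          subst hz'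
          rw [h.2]; ring
    left
    exact (two t_path0 t_path1 hm hα hβ hγ hr x1 c2 c3 c4).full x z y
  · subst h
    left
    exact (three (m := m) (r := m - 3) (J := γ) (i := α) (by omega) (by omega)
          (by omega)).full x z y

/-- Normalised form of the theorem. -/
theorem main_lab (A : Type) [AddCommGroup A] [Fintype A] [DecidableEq A] (m h1 h2 h3 : ℕ)
    (hexp : AddMonoid.exponent A = m) (hm : 5 ≤ m) (hcard : Fintype.card A = h1 + h2 + h3 + 3)
    (x1 : ¬ (h2 % m + 2 = m ∧ ((h1 % m = 0 ∧ h3 % m + 1 = m) ∨ (h1 % m + 1 = m ∧ h3 % m = 0))))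
    (x2 : ¬ (h2 = 0 ∧ ((h1 % m + 1 = m ∧ h3 % m + 2 = m) ∨ (h1 % m + 2 = m ∧ h3 % m + 1 = m))))
    (x3 : ¬ (h2 = 1 ∧ ((h1 % m + 1 = m ∧ h3 % m + 3 = m) ∨ (h1 % m + 3 = m ∧ h3 % m + 1 = m)))) :
    Lab A h1 h3 := by
  have hm0 : 0 < m := by omega
  have hdvd : m ∣ Fintype.card A := by
    rw [← hexp, ← Nat.card_eq_fintype_card]
    exact AddGroup.exponent_dvd_nat_card
  obtain ⟨k, hk⟩ := hdvd
  have hk' : Fintype.card A = k * m := by rw [hk]; ring
  obtain ⟨x, hx⟩ : ∃ x, x = h1 / m := ⟨_, rfl⟩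
  obtain ⟨y, hy⟩ : ∃ y, y = h2 / m := ⟨_, rfl⟩
  obtain ⟨z, hz⟩ : ∃ z, z = h3 / m := ⟨_, rfl⟩
  have e1 : h1 = h1 % m + m * x := by rw [hx]; exact (Nat.mod_add_div h1 m).symm
  have e2 : h2 = h2 % m + m * y := by rw [hy]; exact (Nat.mod_add_div h2 m).symm
  have e3 : h3 = h3 % m + m * z := by rw [hz]; exact (Nat.mod_add_div h3 m).symm
  have l1 : h1 % m < m := Nat.mod_lt _ hm0
  have l2 : h2 % m < m := Nat.mod_lt _ hm0
  have l3 : h3 % m < m := Nat.mod_lt _ hm0
  have hsum : m * k = (h1 % m + h2 % m + h3 % m + 3) + m * (x + y + z) := by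
    have : m * (x + y + z) = m * x + m * y + m * z := by ring
    omega
  have hle : x + y + z ≤ k := by
    have : m * (x + y + z) ≤ m * k := by omega
    exact Nat.le_of_mul_le_mul_left this hm0
  obtain ⟨r, hr⟩ := Nat.exists_eq_add_of_le hle
  have hr' : h1 % m + h2 % m + h3 % m + 3 = r * m := by
    rw [hr] at hsum
    have : m * (x + y + z + r) = m * (x + y + z) + r * m := by ring
    omega
  have hnum := num_aux (x := x) (y := y) (z := z) hm l1 l2 l3 hr' x1
    (by
      rintro ⟨a1, a2, a3⟩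
      apply x2
      refine ⟨?_, a3⟩
      rw [e2, a1, a2]; simp)
    (by
      rintro ⟨a1, a2, a3⟩
      apply x3
      refine ⟨?_, a3⟩
      rw [e2, a1, a2]; simp)
  rw [← e1, ← e3] at hnum
  rcases hnum with h | ⟨a1, a2, a3, a4⟩ | ⟨a1, a2, a3, a4⟩
  · refine t_asm A m k h1 h3 hm0 hexp hk' ?_
    exact h.cast (by omega) rfl rfl
  · have : h1 = 0 := by rw [e1, a1, a2]; simp
    have h3' : h3 = m - 2 + m * z := by
      have : h3 % m = m - 2 := by omega
      rw [this] at e3; exact e3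
    rw [this, h3']
    exact t_star A m k z (by omega) hexp hk' (by omega)
  · have : h3 = 0 := by rw [e3, a1, a2]; simp
    have h1' : h1 = m - 2 + m * x := by
      have : h1 % m = m - 2 := by omega
      rw [this] at e1; exact e1
    rw [this, h1']
    exact (t_star A m k x (by omega) hexp hk' (by omega)).symm

end Pool.Agent.H96.RC
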