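import Pool.Agent.H96.RC.Defs

set_option autoImplicit false

namespace Pool.Agent.H96.RC

open Finset

/-- (1,2): `x ↦ x + 2`, `x + 1` stays. -/
theorem til_b20 (x : ℤ) : Tl 1 2 1 x (x + 2) 0 1 := by
  refine ⟨∅, {x}, by simp, by simp, by simp, by simp, by simp, ?_, ?_⟩
  · intro u hu v hv h
    simp only [Finset.mem_Ico, sh, Finset.notMem_empty, Finset.mem_singleton, if_false] at hu hv h
    split_ifs at h <;> omega
  · intro u hu
    simp only [Finset.mem_Ico, sh, Finset.notMem_empty, Finset.mem_singleton, if_false] at hu ⊢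
    split_ifs <;> omega

/-- (1,-1): swap `x`, `x + 1`. -/
theorem til_sw (x : ℤ) : Tl 1 (-1) 0 x (x + 2) 1 1 := by
  refine ⟨{x}, {x + 1}, by simp, by simp, by simp, by simp, by simp, ?_, ?_⟩
  · intro u hu v hv h
    simp only [Finset.mem_Ico, sh, Finset.mem_singleton] at hu hv h
    split_ifs at h <;> omega
  · intro u hu
    simp only [Finset.mem_Ico, sh, Finset.mem_singleton] at hu ⊢
    split_ifs <;> omega

/-- (1,-2): the cycle `x ↦ x + 1 ↦ x + 2 ↦ x`. -/
theorem til_c3 (x : ℤ) : Tl 1 (-2) 0 x (x + 3) 2 1 := by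
  refine ⟨{x, x + 1}, {x + 2}, ?_, ?_, ?_, ?_, by simp, ?_, ?_⟩
  · intro u; simp only [Finset.mem_Ico, Finset.mem_insert, Finset.mem_singleton]; omega
  · intro u; simp only [Finset.mem_Ico, Finset.mem_singleton]; omega
  · rw [Finset.disjoint_left]
    intro u; simp only [Finset.mem_insert, Finset.mem_singleton]; omega
  · rw [Finset.card_pair]; omega
  · intro u hu v hv h
    simp only [Finset.mem_Ico, sh, Finset.mem_insert, Finset.mem_singleton] at hu hv h
    split_ifs at h <;> omega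
  · intro u hu
    simp only [Finset.mem_Ico, sh, Finset.mem_insert, Finset.mem_singleton] at hu ⊢
    split_ifs <;> omega

/-- (1,-2): `x + 1 ↦ x - 1`, `x` stays. -/
theorem til_D (x : ℤ) : Tl 1 (-2) (-1) x (x + 2) 0 1 := by
  refine ⟨∅, {x + 1}, by simp, by simp, by simp, by simp, by simp, ?_, ?_⟩
  · intro u hu v hv h
    simp only [Finset.mem_Ico, sh, Finset.notMem_empty, Finset.mem_singleton, if_false] at hu hv h
    split_ifs at h <;> omega
  · intro u hu
    simp only [Finset.mem_Ico, sh, Finset.notMem_empty, Finset.mem_singleton, if_false] at hu ⊢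
    split_ifs <;> omega

/-- (1,-2): `x + 2 ↦ x`, `x + 1 ↦ x - 1`, `x ↦ x + 1`. -/
theorem til_DU (x : ℤ) : Tl 1 (-2) (-1) x (x + 3) 1 2 := by
  refine ⟨{x}, {x + 1, x + 2}, ?_, ?_, ?_, by simp, ?_, ?_, ?_⟩
  · intro u; simp only [Finset.mem_Ico, Finset.mem_singleton]; omega
  · intro u; simp only [Finset.mem_Ico, Finset.mem_insert, Finset.mem_singleton]; omega
  · rw [Finset.disjoint_left]
    intro u; simp only [Finset.mem_insert, Finset.mem_singleton]; omega
  · rw [Finset.card_pair]; omega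
  · intro u hu v hv h
    simp only [Finset.mem_Ico, sh, Finset.mem_insert, Finset.mem_singleton] at hu hv h
    split_ifs at h <;> omega
  · intro u hu
    simp only [Finset.mem_Ico, sh, Finset.mem_insert, Finset.mem_singleton] at hu ⊢
    split_ifs <;> omega

/-! ### full cosets -/

theorem Fz.ofTl {m : ℕ} {a c σ x y : ℤ} {i j : ℕ} (h : Tl a c σ x y i j) (hy : y = x + m) :
    Fz m a c i j := by
  subst hy
  refine ⟨x, x + σ, ?_⟩
  have := h
  unfold Tl at this
  have e : x + (m : ℤ) + σ = x + σ + m := by ring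
  rwa [e] at this

theorem Fz.symm {m : ℕ} {a c : ℤ} {i j : ℕ} (h : Fz m a c i j) : Fz m c a j i := by
  obtain ⟨s, s', h⟩ := h
  exact ⟨s, s', h.symm⟩

theorem Fz.zero (m : ℕ) (a c : ℤ) : Fz m a c 0 0 :=
  Fz.ofTl (Tl.fix a c 0 m) (by ring)

theorem Fz.fulla (m : ℕ) (a c : ℤ) : Fz m a c m 0 := by
  refine ⟨0, a, Ico 0 (0 + (m : ℤ)), ∅, by simp, by simp, by simp, by simp, by simp, ?_, ?_⟩
  · intro u hu v hv h
    simp only [sh, hu, hv, if_true] at h
    omega
  · intro u hu
    simp only [sh, hu, if_true]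
    rw [Finset.mem_Ico] at hu ⊢
    omega

theorem Fz.fullc (m : ℕ) (a c : ℤ) : Fz m a c 0 m := (Fz.fulla m c a).symm

theorem F12 {m i k : ℕ} (h : i + 2 * k = m) : Fz m 1 2 i k := by
  have h1 := Tl.rep (len := 1) (fun x => Tl.one 1 2 x) i 0
  have h2 := Tl.rep (len := 2) (fun x => til_b20 x) k (0 + (i * 1 : ℕ))
  have h3 := h1.comp h2 (le_add_of_nonneg_right (by positivity))
    (le_add_of_nonneg_right (by positivity))
  have h4 : Fz m 1 2 (i * 1 + k * 0) (i * 0 + k * 1) :=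
    Fz.ofTl h3 (by push_cast; omega)
  simpa using h4

theorem F11 {m i : ℕ} (h : 2 * i ≤ m) : Fz m 1 (-1) i i := by
  have h1 := Tl.rep (len := 2) (fun x => til_sw x) i 0
  have h2 := Tl.fix 1 (-1) (0 + (i * 2 : ℕ)) m
  have h3 := h1.comp h2 (le_add_of_nonneg_right (by positivity)) (by push_cast; omega)
  have h4 : Fz m 1 (-1) (i * 1 + 0) (i * 1 + 0) :=
    Fz.ofTl h3 (by ring)
  simpa using h4

theorem Fcyc {m t : ℕ} (h : 3 * t ≤ m) : Fz m 1 (-2) (2 * t) t := by
  have h1 := Tl.rep (len := 3) (fun x => til_c3 x) t 0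
  have h2 := Tl.fix 1 (-2) (0 + (t * 3 : ℕ)) m
  have h3 := h1.comp h2 (le_add_of_nonneg_right (by positivity)) (by push_cast; omega)
  have h4 : Fz m 1 (-2) (t * 2 + 0) (t * 1 + 0) :=
    Fz.ofTl h3 (by ring)
  have e1 : t * 2 + 0 = 2 * t := by ring
  have e2 : t * 1 + 0 = t := by ring
  rwa [e1, e2] at h4

theorem Fpath {m u k : ℕ} (h : 3 * u + 2 * k = m) : Fz m 1 (-2) u (2 * u + k) := by
  have h1 := Tl.rep (len := 3) (fun x => til_DU x) u 0
  have h2 := Tl.rep (len := 2) (fun x => til_D x) k (0 + (u * 3 : ℕ))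
  have h3 := h1.comp h2 (le_add_of_nonneg_right (by positivity))
    (le_add_of_nonneg_right (by positivity))
  have h4 : Fz m 1 (-2) (u * 1 + k * 0) (u * 2 + k * 1) :=
    Fz.ofTl h3 (by push_cast; omega)
  have e1 : u * 1 + k * 0 = u := by ring
  have e2 : u * 2 + k * 1 = 2 * u + k := by ring
  rwa [e1, e2] at h4

/-! ### special cosets -/

theorem Sz.symm {m : ℕ} {a c : ℤ} {i j : ℕ} (h : Sz m a c i j) : Sz m c a j i := by
  obtain ⟨s, s', za, zc, wa, wc, h1, h2, h3, h4, h5, h6, h7, h8, h9, h10, h11, h12, h13, h14,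
    h15, h16, h17, h18⟩ := h
  refine ⟨s, s', zc, za, wc, wa, h2, h1, h4, h3, h5, h6, h9, h10, h7, h8, h13, h14, h11, h12,
    h16, h15, h17.symm, ?_⟩
  have e1 : ({0, zc, za} : Finset ℤ) = {0, za, zc} := by
    ext t; simp only [Finset.mem_insert, Finset.mem_singleton]; tauto
  have e2 : ({wc, wa} : Finset ℤ) = {wa, wc} := by
    ext t; simp only [Finset.mem_insert, Finset.mem_singleton]; tauto
  rw [e1, e2]
  exact h18.symm

theorem S12 {m i k : ℕ} (h : i + 2 * k + 3 ≤ m) : Sz m 1 2 i k := by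
  obtain ⟨r, hr⟩ : ∃ r : ℕ, m = 3 + r + i + 2 * k := ⟨m - 3 - i - 2 * k, by omega⟩
  have h1 := Tl.rep (len := 1) (fun x => Tl.one 1 2 x) i (3 + r : ℕ)
  have h2 := Tl.rep (len := 2) (fun x => til_b20 x) k ((3 + r : ℕ) + (i * 1 : ℕ))
  have h3 := h1.comp h2 (le_add_of_nonneg_right (by positivity))
    (le_add_of_nonneg_right (by positivity))
  have h4 : Mv (1 : ℤ) 2 (Ico (3 : ℤ) ((3 + r : ℕ) : ℤ)) (Ico (3 : ℤ) ((3 + r : ℕ) : ℤ)) 0 0 :=
    Mv.fix 1 2 (Finset.Subset.refl _)
  unfold Tl at h3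
  have h5 := h4.union h3 (by
    rw [Finset.disjoint_left]; intro t; simp only [Finset.mem_Ico]; omega) (by
    rw [Finset.disjoint_left]; intro t; simp only [Finset.mem_Ico]; omega)
  have e1 : 0 + (i * 1 + k * 0) = i := by ring
  have e2 : 0 + (i * 0 + k * 1) = k := by ring
  rw [e1, e2] at h5
  refine ⟨0, 1, 1, 2, 1, 2, Or.inl rfl, Or.inl rfl, Or.inl rfl, Or.inl rfl, by omega, by omega,
    by omega, by omega, by omega, by omega, by omega, by omega, by omega, by omega, by omega,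
    by omega, by omega, ?_⟩
  have d1 : (Ico (0 : ℤ) (0 + m) \ {0, 1, 2}) = Ico (3 : ℤ) ((3 + r : ℕ) : ℤ) ∪
      Ico ((3 + r : ℕ) : ℤ) ((3 + r : ℕ) + (i * 1 : ℕ) + (k * 2 : ℕ)) := by
    ext t
    simp only [Finset.mem_sdiff, Finset.mem_union, Finset.mem_Ico, Finset.mem_insert,
      Finset.mem_singleton]
    push_cast
    omega
  rw [d1]
  refine h5.mono ?_
  intro t
  simp only [Finset.mem_sdiff, Finset.mem_union, Finset.mem_Ico, Finset.mem_insert,
      Finset.mem_singleton]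
  push_cast
  omega

theorem S11 {m i : ℕ} (h : 2 * i + 3 ≤ m) : Sz m 1 (-1) i i := by
  have h1 := Tl.rep (len := 2) (fun x => til_sw x) i 2
  have h2 := Tl.fix 1 (-1) (2 + (i * 2 : ℕ)) (m - 1)
  have h3 := h1.comp h2 (le_add_of_nonneg_right (by positivity)) (by push_cast; omega)
  have e1 : i * 1 + 0 = i := by ring
  rw [e1] at h3
  unfold Tl at h3
  refine ⟨0, 0, 1, m - 1, 1, m - 1, Or.inl rfl, Or.inr (by ring), Or.inl rfl, Or.inr (by ring),
    by omega, by omega,
    by omega, by omega, by omega, by omega, by omega, by omega, by omega, by omega, by omega,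
    by omega, by omega, ?_⟩
  have d1 : (Ico (0 : ℤ) (0 + m) \ {0, 1, (m : ℤ) - 1}) = Ico (2 : ℤ) (m - 1) := by
    ext t
    simp only [Finset.mem_sdiff, Finset.mem_Ico, Finset.mem_insert,
      Finset.mem_singleton]
    omega
  rw [d1]
  refine h3.mono ?_
  intro t
  simp only [Finset.mem_sdiff, Finset.mem_Ico, Finset.mem_insert,
      Finset.mem_singleton]
  omega

/-- (1,-2), no path. -/
theorem Se0 {m t : ℕ} (h : 3 * t + 4 ≤ m) : Sz m 1 (-2) (2 * t) t := by
  have h1 := Tl.rep (len := 3) (fun x => til_c3 x) t 2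
  have h2 := Tl.fix 1 (-2) (2 + (t * 3 : ℕ)) (m - 2)
  have h3 := h1.comp h2 (le_add_of_nonneg_right (by positivity)) (by push_cast; omega)
  have e1 : t * 2 + 0 = 2 * t := by ring
  have e2 : t * 1 + 0 = t := by ring
  rw [e1, e2] at h3
  unfold Tl at h3
  have h4 : Mv (1 : ℤ) (-2) (Ico (m - 1 : ℤ) m) (Ico (m - 1 : ℤ) m) 0 0 :=
    Mv.fix _ _ (Finset.Subset.refl _)
  have h5 := h3.union h4 (by
    rw [Finset.disjoint_left]; intro t; simp only [Finset.mem_Ico]; omega) (by
    rw [Finset.disjoint_left]; intro t; simp only [Finset.mem_Ico]; omega)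
  refine ⟨0, 0, 1, m - 2, 1, m - 2, Or.inl rfl, Or.inr (by ring), Or.inl rfl, Or.inr (by ring),
    by omega, by omega,
    by omega, by omega, by omega, by omega, by omega, by omega, by omega, by omega, by omega,
    by omega, by omega, ?_⟩
  have d1 : (Ico (0 : ℤ) (0 + m) \ {0, 1, (m : ℤ) - 2}) =
      Ico (2 : ℤ) (m - 2) ∪ Ico (m - 1 : ℤ) m := by
    ext t
    simp only [Finset.mem_sdiff, Finset.mem_union, Finset.mem_Ico, Finset.mem_insert,
      Finset.mem_singleton]
    omega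
  rw [d1]
  refine h5.mono ?_
  intro t
  simp only [Finset.mem_sdiff, Finset.mem_union, Finset.mem_Ico, Finset.mem_insert,
      Finset.mem_singleton]
  omega

/-- (1,-2), `m - 1 ↦ 0`. -/
theorem SII {m t : ℕ} (h : 3 * t + 4 ≤ m) : Sz m 1 (-2) (2 * t + 1) t := by
  have h1 := Tl.rep (len := 3) (fun x => til_c3 x) t 2
  have h2 := Tl.fix 1 (-2) (2 + (t * 3 : ℕ)) (m - 2)
  have h3 := h1.comp h2 (le_add_of_nonneg_right (by positivity)) (by push_cast; omega)
  have e1 : t * 2 + 0 = 2 * t := by ring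
  have e2 : t * 1 + 0 = t := by ring
  rw [e1, e2] at h3
  unfold Tl at h3
  have h4 := Tl.one 1 (-2) (m - 1)
  unfold Tl at h4
  have h5 := h3.union h4 (by
    rw [Finset.disjoint_left]; intro t; simp only [Finset.mem_Ico]; omega) (by
    rw [Finset.disjoint_left]; intro t; simp only [Finset.mem_Ico]; omega)
  refine ⟨0, 1, 1, m - 2, 1, m - 2, Or.inl rfl, Or.inr (by ring), Or.inl rfl, Or.inr (by ring),
    by omega, by omega,
    by omega, by omega, by omega, by omega, by omega, by omega, by omega, by omega, by omega,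
    by omega, by omega, ?_⟩
  have d1 : (Ico (0 : ℤ) (0 + m) \ {0, 1, (m : ℤ) - 2}) =
      Ico (2 : ℤ) (m - 2) ∪ Ico (m - 1 : ℤ) (m - 1 + 1) := by
    ext t
    simp only [Finset.mem_sdiff, Finset.mem_union, Finset.mem_Ico, Finset.mem_insert,
      Finset.mem_singleton]
    omega
  rw [d1]
  refine h5.mono ?_
  intro t
  simp only [Finset.mem_sdiff, Finset.mem_union, Finset.mem_Ico, Finset.mem_insert,
      Finset.mem_singleton]
  omega

end Pool.Agent.H96.RC
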